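import Pool.Agent.Helper91_SP.Defs
import Pool.Agent.Common_PNT.PNT

/-!
# Primes in progressions in a window
-/

set_option autoImplicit false

namespace Pool.Agent.Helper91_SP

open Real Filter Topology

lemma nonprime_sum (x : ℝ) :
    ∑ n ∈ (Finset.Ioc 0 ⌊x⌋₊).filter (fun n => ¬ n.Prime), ArithmeticFunction.vonMangoldt n
      = Chebyshev.psi x - Chebyshev.theta x := by
  unfold Chebyshev.psi Chebyshev.theta
  rw [← Finset.sum_filter_add_sum_filter_not (Finset.Ioc 0 ⌊x⌋₊) Nat.Prime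
    (fun n => ArithmeticFunction.vonMangoldt n)]
  have : ∑ n ∈ (Finset.Ioc 0 ⌊x⌋₊).filter Nat.Prime, ArithmeticFunction.vonMangoldt n
      = ∑ n ∈ (Finset.Ioc 0 ⌊x⌋₊).filter Nat.Prime, log n := by
    apply Finset.sum_congr rfl
    intro n hn
    exact ArithmeticFunction.vonMangoldt_apply_prime (Finset.mem_filter.1 hn).2
  rw [this]
  ring

lemma ap_near (W : ℕ) [NeZero W] (r : ZMod W) (hr : IsUnit r) (η : ℝ) (hη : 0 < η) :
    ∃ X : ℝ, 0 < X ∧ ∀ x : ℝ, X ≤ x →
      ((W.totient : ℝ)⁻¹ - η) * x ≤ ∑ k ∈ Finset.Icc 1 ⌊x⌋₊, ArithmeticFunction.vonMangoldt.residueClass r k ∧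
      ∑ k ∈ Finset.Icc 1 ⌊x⌋₊, ArithmeticFunction.vonMangoldt.residueClass r k ≤ ((W.totient : ℝ)⁻¹ + η) * x := by
  have h := Pool.Agent.Common_PNT.tendsto_psi_residueClass hr
  have h1 := (Metric.tendsto_nhds.1 h) η hη
  obtain ⟨X, hX⟩ := eventually_atTop.1 h1
  refine ⟨max X 1, by positivity, fun x hx => ?_⟩
  have hx1 : (1 : ℝ) ≤ x := (le_max_right _ _).trans hx
  have hx0 : 0 < x := by linarith
  have h2 := hX x ((le_max_left _ _).trans hx)
  rw [Real.dist_eq, abs_lt] at h2
  have h3 : ∑ k ∈ Finset.Icc 1 ⌊x⌋₊, ArithmeticFunction.vonMangoldt.residueClass r k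
      = (∑ k ∈ Finset.Icc 1 ⌊x⌋₊, ArithmeticFunction.vonMangoldt.residueClass r k) / x * x := by field_simp
  rw [h3]
  constructor
  · exact mul_le_mul_of_nonneg_right (by linarith) hx0.le
  · exact mul_le_mul_of_nonneg_right (by linarith) hx0.le

lemma ap_lower (W : ℕ) (hW : 0 < W) (r : ℕ) (hr : Nat.Coprime r W) (y0 y1 : ℝ) (h0 : 0 < y0)
    (h01 : y0 < y1) :
    ∃ K : ℕ, ∀ k : ℕ, K ≤ k → (y1 - y0) / 4 * k / log k ≤
      (W.totient : ℝ) * (((PW k y0 y1).filter (fun p => p % W = r % W)).card : ℝ) := by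
  have : NeZero W := ⟨hW.ne'⟩
  have hφ : (0 : ℝ) < W.totient := by exact_mod_cast Nat.totient_pos.2 hW
  set φ : ℝ := (W.totient : ℝ) with hφdef
  have hunit : IsUnit (r : ZMod W) := (ZMod.isUnit_iff_coprime r W).2 hr
  have hη : 0 < (y1 - y0) / (8 * φ * (y0 + y1)) := by
    apply div_pos (by linarith)
    apply mul_pos (by positivity) (by linarith)
  set η := (y1 - y0) / (8 * φ * (y0 + y1)) with hηdef
  obtain ⟨X, hX, hT⟩ := ap_near W (r : ZMod W) hunit η hη
  obtain ⟨C, hC⟩ := Chebyshev.psi_sub_theta_le_mul_sqrt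
  set C' := max C 0 with hC'
  have hC'0 : 0 ≤ C' := le_max_right _ _
  set B := 8 * φ * C' * √y1 / (y1 - y0) with hB
  have hB0 : 0 ≤ B := div_nonneg (by positivity) (by linarith)
  refine ⟨⌈X / y0⌉₊ + ⌈B ^ 2⌉₊ + ⌈y1⌉₊ + 3, fun k hk => ?_⟩
  have hk3' : (3 : ℝ) ≤ k := by
    have : 3 ≤ k := by omega
    exact_mod_cast this
  have hk0 : (0 : ℝ) < k := by linarith
  have hkX : X ≤ y0 * k := by
    have h2 : X / y0 ≤ k := (Nat.le_ceil _).trans (by exact_mod_cast (by omega))
    rw [div_le_iff₀ h0] at h2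
    linarith
  have hkB : B ^ 2 ≤ k := (Nat.le_ceil _).trans (by exact_mod_cast (by omega))
  have hky : y1 ≤ k := (Nat.le_ceil _).trans (by exact_mod_cast (by omega))
  have hL : 0 < log k := log_pos (by linarith)
  have hkX1 : X ≤ y1 * k := by nlinarith
  obtain ⟨-, h3⟩ := hT (y0 * k) hkX
  obtain ⟨h4, -⟩ := hT (y1 * k) hkX1
  have hIcc : ∀ n : ℕ, Finset.Icc 1 n = Finset.Ioc 0 n := fun n => by
    ext k; simp [Nat.succ_le_iff]
  rw [hIcc] at h3 h4
  have hfl : ⌊y0 * (k : ℝ)⌋₊ ≤ ⌊y1 * (k : ℝ)⌋₊ := Nat.floor_le_floor (by nlinarith)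
  have hsub : Finset.Ioc 0 ⌊y0 * (k : ℝ)⌋₊ ⊆ Finset.Ioc 0 ⌊y1 * (k : ℝ)⌋₊ :=
    Finset.Ioc_subset_Ioc_right hfl
  set F := (PW k y0 y1).filter (fun p => p % W = r % W) with hF
  have h5 : ∑ n ∈ Finset.Ioc 0 ⌊y1 * (k : ℝ)⌋₊, ArithmeticFunction.vonMangoldt.residueClass (r : ZMod W) n
      - ∑ n ∈ Finset.Ioc 0 ⌊y0 * (k : ℝ)⌋₊, ArithmeticFunction.vonMangoldt.residueClass (r : ZMod W) n
      ≤ ∑ p ∈ F, log p + (Chebyshev.psi (y1 * k) - Chebyshev.theta (y1 * k)) := by
    rw [← Finset.sum_sdiff hsub, add_sub_cancel_right, ← nonprime_sum,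
      ← Finset.sum_filter_add_sum_filter_not _ Nat.Prime]
    apply add_le_add
    · calc ∑ n ∈ (Finset.Ioc 0 ⌊y1 * (k : ℝ)⌋₊ \ Finset.Ioc 0 ⌊y0 * (k : ℝ)⌋₊).filter Nat.Prime,
            ArithmeticFunction.vonMangoldt.residueClass (r : ZMod W) n
          ≤ ∑ n ∈ ((Finset.Ioc 0 ⌊y1 * (k : ℝ)⌋₊ \ Finset.Ioc 0 ⌊y0 * (k : ℝ)⌋₊).filter
            Nat.Prime).filter (fun n => n % W = r % W), log n := by
            conv_rhs => rw [Finset.sum_filter]
            apply Finset.sum_le_sum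
            intro n hn
            have hnp := (Finset.mem_filter.1 hn).2
            by_cases hnr : ((n : ZMod W)) = (r : ZMod W)
            · have h6 : n % W = r % W := (ZMod.natCast_eq_natCast_iff n r W).1 hnr
              rw [if_pos h6]
              refine (ArithmeticFunction.vonMangoldt.residueClass_le _ n).trans ?_
              rw [ArithmeticFunction.vonMangoldt_apply_prime hnp]
            · have h6 : ¬ n % W = r % W := fun h => hnr ((ZMod.natCast_eq_natCast_iff n r W).2 h)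
              rw [if_neg h6]
              have : ArithmeticFunction.vonMangoldt.residueClass (r : ZMod W) n = 0 := by
                unfold ArithmeticFunction.vonMangoldt.residueClass
                rw [Set.indicator_of_notMem]
                exact hnr
              rw [this]
        _ ≤ ∑ p ∈ F, log p := by
            apply Finset.sum_le_sum_of_subset_of_nonneg
            · intro p hp
              rw [Finset.mem_filter, Finset.mem_filter, Finset.mem_sdiff, Finset.mem_Ioc,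
                Finset.mem_Ioc] at hp
              obtain ⟨⟨⟨⟨hp0, hp1⟩, hn⟩, hpp⟩, hpr⟩ := hp
              rw [hF, Finset.mem_filter]
              refine ⟨?_, hpr⟩
              unfold PW
              rw [Finset.mem_filter, Finset.mem_range]
              refine ⟨by omega, hpp, ?_, ?_⟩
              · by_contra hcon
                push Not at hcon
                exact hn ⟨hp0, Nat.le_floor hcon⟩
              · exact (Nat.le_floor_iff (mul_nonneg (by linarith) (by linarith))).1 hp1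
            · intro p _ _
              exact log_natCast_nonneg p
    · calc ∑ n ∈ (Finset.Ioc 0 ⌊y1 * (k : ℝ)⌋₊ \ Finset.Ioc 0 ⌊y0 * (k : ℝ)⌋₊).filter
            (fun n => ¬ n.Prime), ArithmeticFunction.vonMangoldt.residueClass (r : ZMod W) n
          ≤ ∑ n ∈ (Finset.Ioc 0 ⌊y1 * (k : ℝ)⌋₊ \ Finset.Ioc 0 ⌊y0 * (k : ℝ)⌋₊).filter
            (fun n => ¬ n.Prime), ArithmeticFunction.vonMangoldt n :=
            Finset.sum_le_sum (fun n _ => ArithmeticFunction.vonMangoldt.residueClass_le _ n)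
        _ ≤ _ := by
            apply Finset.sum_le_sum_of_subset_of_nonneg
            · apply Finset.filter_subset_filter
              exact Finset.sdiff_subset
            · intro n _ _
              exact ArithmeticFunction.vonMangoldt_nonneg
  have h6 : ∑ p ∈ F, log p ≤ F.card * (2 * log k) := by
    rw [← nsmul_eq_mul]
    apply Finset.sum_le_card_nsmul
    intro p hp
    have h7 := (Finset.mem_filter.1 (Finset.mem_filter.1 hp).1).2
    have h8 : (p : ℝ) ≤ k ^ 2 := by nlinarith [h7.2.2]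
    have h9 : (0 : ℝ) < p := by exact_mod_cast h7.1.pos
    calc log p ≤ log ((k : ℝ) ^ 2) := log_le_log h9 h8
      _ = 2 * log k := by rw [log_pow]; norm_num
  have h7 : Chebyshev.psi (y1 * k) - Chebyshev.theta (y1 * k) ≤ (y1 - y0) / (8 * φ) * k := by
    refine (hC _).trans ?_
    have h8 : C * √(y1 * k) ≤ C' * √(y1 * k) :=
      mul_le_mul_of_nonneg_right (le_max_left _ _) (sqrt_nonneg _)
    refine h8.trans ?_
    rw [sqrt_mul (by linarith)]
    have h9 : B ≤ √k := by
      rw [← sqrt_sq hB0]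
      exact sqrt_le_sqrt hkB
    have h10 : B * √k ≤ k := by
      calc B * √k ≤ √k * √k := mul_le_mul_of_nonneg_right h9 (sqrt_nonneg _)
        _ = k := mul_self_sqrt hk0.le
    have h11 : C' * (√y1 * √k) = (y1 - y0) / (8 * φ) * (B * √k) := by
      rw [hB]
      have : y1 - y0 ≠ 0 := by linarith
      field_simp
    rw [h11]
    exact mul_le_mul_of_nonneg_left h10 (div_nonneg (by linarith) (by positivity))
  have h12 : (φ⁻¹ - η) * (y1 * k) - (φ⁻¹ + η) * (y0 * k)
      = (y1 - y0) * k * (7 / (8 * φ)) := by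
    rw [hηdef]
    have : y0 + y1 ≠ 0 := by linarith
    field_simp
    ring
  have h13 : (y1 - y0) * k * (7 / (8 * φ)) ≤ F.card * (2 * log k) + (y1 - y0) / (8 * φ) * k := by
    linarith
  have h14 : (y1 - y0) * k * 7 ≤ 8 * φ * (F.card * (2 * log k)) + (y1 - y0) * k := by
    have := mul_le_mul_of_nonneg_left h13 (show (0 : ℝ) ≤ 8 * φ by positivity)
    have e1 : 8 * φ * ((y1 - y0) * k * (7 / (8 * φ))) = (y1 - y0) * k * 7 := by field_simp
    have e2 : 8 * φ * (F.card * (2 * log k) + (y1 - y0) / (8 * φ) * k)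
        = 8 * φ * (F.card * (2 * log k)) + (y1 - y0) * k := by field_simp
    rw [e1, e2] at this
    exact this
  rw [div_le_iff₀ hL]
  have h15 : 0 < (y1 - y0) * k := mul_pos (by linarith) hk0
  nlinarith

end Pool.Agent.Helper91_SP
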