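import Pool.Agent.Helper91_SP.Defs

/-!
# Removing bad primes
-/

set_option autoImplicit false

namespace Pool.Agent.Helper91_SP

open Real

/-- a linear relation `a x + b p` between primes in windows -/
structure Rel where
  /-- coefficient of `x` -/
  a : ℤ
  /-- coefficient of `p` -/
  b : ℤ
  /-- window of `x` -/
  x0 : ℝ
  /-- window of `x` -/
  x1 : ℝ
  /-- window of `p` -/
  y0 : ℝ
  /-- window of `p` -/
  y1 : ℝ

/-- admissible relation -/
structure Rel.Ok (ρ : Rel) : Prop where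
  cop : IsCoprime ρ.a ρ.b
  odd : Odd (ρ.a + ρ.b)
  a0 : ρ.a ≠ 0
  b0 : ρ.b ≠ 0
  unit : ρ.a * ρ.a = 1 ∨ ρ.b * ρ.b = 1
  x0p : 1 / 100 ≤ ρ.x0
  x01 : ρ.x0 < ρ.x1
  x1p : ρ.x1 ≤ 1
  y0p : 1 / 100 ≤ ρ.y0
  y01 : ρ.y0 < ρ.y1
  y1p : ρ.y1 ≤ 1
  pos : ∀ x ∈ Set.Icc ρ.x0 ρ.x1, ∀ y ∈ Set.Icc ρ.y0 ρ.y1, 0 < (ρ.a : ℝ) * x + ρ.b * y

open Classical in
/-- neighbours avoiding `B`, with value avoiding `B` -/
noncomputable def cnb (ρ : Rel) (k : ℕ) (B : Finset ℕ) (x : ℕ) : Finset ℕ :=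
  (nb ρ.a ρ.b ρ.y0 ρ.y1 k x).filter
    (fun p => p ∉ B ∧ ∀ q ∈ B, (q : ℤ) ≠ ρ.a * x + ρ.b * p)

lemma mem_PW {k : ℕ} {x0 x1 : ℝ} {p : ℕ} (h : p ∈ PW k x0 x1) :
    p.Prime ∧ x0 * k < p ∧ (p : ℝ) ≤ x1 * k := (Finset.mem_filter.1 h).2

lemma PW_sub_Icc {k : ℕ} {x0 x1 : ℝ} {p : ℕ} (h1 : x1 ≤ 1) (h : p ∈ PW k x0 x1) :
    p ∈ Finset.Icc 1 k := by
  obtain ⟨hp, -, h⟩ := mem_PW h
  rw [Finset.mem_Icc]
  refine ⟨hp.one_lt.le, ?_⟩
  have : (p : ℝ) ≤ k := h.trans (by nlinarith [(Nat.cast_nonneg k : (0 : ℝ) ≤ k)])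
  exact_mod_cast this

open Classical in
lemma dc (P B : Finset ℕ) (r : ℕ → ℕ → Prop) (M : ℝ)
    (h : ∀ z ∈ B, ((P.filter (fun x => r x z)).card : ℝ) ≤ M) :
    ∑ x ∈ P, ((B.filter (fun z => r x z)).card : ℝ) ≤ B.card * M := by
  have h1 := Finset.sum_card_bipartiteAbove_eq_sum_card_bipartiteBelow (s := P) (t := B) r
  have h2 : ∑ x ∈ P, ((B.filter (fun z => r x z)).card : ℝ)
      = ∑ z ∈ B, ((P.filter (fun x => r x z)).card : ℝ) := by exact_mod_cast h1
  rw [h2]
  calc _ ≤ ∑ z ∈ B, M := Finset.sum_le_sum h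
    _ = _ := by simp

open Classical in
theorem clean (hD : DegMinus) (hU : Up) (ρ : Rel) (hρ : ρ.Ok) :
    ∃ c : ℝ, 0 < c ∧ ∃ C : ℝ, 0 < C ∧ ∀ δ : ℝ, 0 < δ → ∃ K : ℕ, ∀ k : ℕ, K ≤ k →
      ∀ B : Finset ℕ, (∀ z ∈ B, z.Prime ∧ (k : ℝ) / 100 ≤ z) → (B.card : ℝ) ≤ δ * k / log k →
        (((PW k ρ.x0 ρ.x1).filter
          (fun x => ((cnb ρ k B x).card : ℝ) < c * k / (log k) ^ 2)).card : ℝ)
          ≤ C * δ * k / log k := by
  obtain ⟨a, b, x0, x1, y0, y1⟩ := ρ
  obtain ⟨cop, odd, a0, b0, unit, x0p, x01, x1p, y0p, y01, y1p, pos⟩ := hρ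
  simp only at *
  obtain ⟨c0, hc0, hdeg⟩ := hD a b x0 x1 y0 y1 cop odd a0 b0 (by linarith) x01 (by linarith) y01
    pos
  obtain ⟨C1, hC1, K1, hup1⟩ := hU a b a0 b0
  -- the second double count
  have hE2 : ∃ C2 : ℝ, 0 < C2 ∧ ∃ K2 : ℕ, ∀ k : ℕ, K2 ≤ k → ∀ B : Finset ℕ,
      (∀ z ∈ B, z.Prime ∧ (k : ℝ) / 100 ≤ z) →
      ∑ x ∈ PW k x0 x1, (((nb a b y0 y1 k x).filter
        (fun p : ℕ => ∃ q ∈ B, (q : ℤ) = a * x + b * p)).card : ℝ)
        ≤ B.card * (C2 * k / (log k) ^ 2) := by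
    rcases unit with ha | hb
    · obtain ⟨C2, hC2, K2, hup2⟩ := hU (-(a * b)) a (neg_ne_zero.2 (mul_ne_zero a0 b0)) a0
      refine ⟨C2, hC2, K2, fun k hk B hB => ?_⟩
      -- swap the order of summation
      have h1 : ∑ x ∈ PW k x0 x1, (((nb a b y0 y1 k x).filter
          (fun p : ℕ => ∃ q ∈ B, (q : ℤ) = a * x + b * p)).card : ℝ)
          ≤ ∑ x ∈ PW k x0 x1, (((PW k y0 y1).filter
          (fun p : ℕ => ∃ q ∈ B, (q : ℤ) = a * x + b * p)).card : ℝ) := by
        apply Finset.sum_le_sum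
        intro x hx
        apply Nat.cast_le.2
        apply Finset.card_le_card
        apply Finset.filter_subset_filter
        exact Finset.filter_subset _ _
      have h2 : ∑ x ∈ PW k x0 x1, (((PW k y0 y1).filter
          (fun p : ℕ => ∃ q ∈ B, (q : ℤ) = a * x + b * p)).card : ℝ)
          = ∑ p ∈ PW k y0 y1, (((PW k x0 x1).filter
          (fun x : ℕ => ∃ q ∈ B, (q : ℤ) = a * x + b * p)).card : ℝ) := by
        exact_mod_cast Finset.sum_card_bipartiteAbove_eq_sum_card_bipartiteBelow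
          (s := PW k x0 x1) (t := PW k y0 y1) (fun x p : ℕ => ∃ q ∈ B, (q : ℤ) = a * x + b * p)
      have h3 : ∑ p ∈ PW k y0 y1, (((PW k x0 x1).filter
          (fun x : ℕ => ∃ q ∈ B, (q : ℤ) = a * x + b * p)).card : ℝ)
          ≤ ∑ p ∈ PW k y0 y1,
            ((B.filter (fun z : ℕ => PInt (-(a * b) * p + a * z))).card : ℝ) := by
        apply Finset.sum_le_sum
        intro p hp
        apply Nat.cast_le.2
        apply Finset.card_le_card_of_injOn (fun x : ℕ => (a * x + b * p).toNat)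
        · intro x hx
          rw [Finset.mem_coe, Finset.mem_filter] at hx
          obtain ⟨hx, q, hq, hqe⟩ := hx
          rw [Finset.mem_coe, Finset.mem_filter]
          have h4 : (a * x + b * p).toNat = q := by rw [← hqe]; simp
          show (a * x + b * p).toNat ∈ B ∧ PInt (-(a * b) * p + a * ((a * x + b * p).toNat : ℕ))
          rw [h4]
          refine ⟨hq, x, (mem_PW hx).1, ?_⟩
          rw [hqe]
          linear_combination (x : ℤ) * ha
        · intro x hx x' hx' h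
          rw [Finset.mem_coe, Finset.mem_filter] at hx hx'
          obtain ⟨hx, q, hq, hqe⟩ := hx
          obtain ⟨hx', q', hq', hqe'⟩ := hx'
          simp only [← hqe, ← hqe', Int.toNat_natCast] at h
          rw [h, hqe'] at hqe
          have : a * ((x : ℤ) - x') = 0 := by linear_combination -hqe
          rcases mul_eq_zero.1 this with h | h
          · exact absurd h a0
          · exact_mod_cast sub_eq_zero.1 h
      refine h1.trans (h2.le.trans (h3.trans ?_))
      apply dc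
      intro z hz
      refine le_trans ?_ (hup2 k hk z (hB z hz).1 (hB z hz).2)
      apply Nat.cast_le.2
      apply Finset.card_le_card
      intro n hn
      rw [Finset.mem_filter] at hn ⊢
      exact ⟨PW_sub_Icc y1p hn.1, (mem_PW hn.1).1, hn.2⟩
    · obtain ⟨C2, hC2, K2, hup2⟩ := hU (-(a * b)) b (neg_ne_zero.2 (mul_ne_zero a0 b0)) b0
      refine ⟨C2, hC2, K2, fun k hk B hB => ?_⟩
      have h3 : ∑ x ∈ PW k x0 x1, (((nb a b y0 y1 k x).filter
          (fun p : ℕ => ∃ q ∈ B, (q : ℤ) = a * x + b * p)).card : ℝ)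
          ≤ ∑ x ∈ PW k x0 x1,
            ((B.filter (fun z : ℕ => PInt (-(a * b) * x + b * z))).card : ℝ) := by
        apply Finset.sum_le_sum
        intro x hx
        apply Nat.cast_le.2
        apply Finset.card_le_card_of_injOn (fun p : ℕ => (a * x + b * p).toNat)
        · intro p hp
          rw [Finset.mem_coe, Finset.mem_filter] at hp
          obtain ⟨hp, q, hq, hqe⟩ := hp
          rw [Finset.mem_coe, Finset.mem_filter]
          have h4 : (a * x + b * p).toNat = q := by rw [← hqe]; simp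
          show (a * x + b * p).toNat ∈ B ∧ PInt (-(a * b) * x + b * ((a * x + b * p).toNat : ℕ))
          rw [h4]
          refine ⟨hq, p, (mem_PW (Finset.mem_filter.1 hp).1).1, ?_⟩
          rw [hqe]
          linear_combination (p : ℤ) * hb
        · intro p hp p' hp' h
          rw [Finset.mem_coe, Finset.mem_filter] at hp hp'
          obtain ⟨hp, q, hq, hqe⟩ := hp
          obtain ⟨hp', q', hq', hqe'⟩ := hp'
          simp only [← hqe, ← hqe', Int.toNat_natCast] at h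
          rw [h, hqe'] at hqe
          have : b * ((p : ℤ) - p') = 0 := by linear_combination -hqe
          rcases mul_eq_zero.1 this with h | h
          · exact absurd h b0
          · exact_mod_cast sub_eq_zero.1 h
      refine h3.trans ?_
      apply dc
      intro z hz
      refine le_trans ?_ (hup2 k hk z (hB z hz).1 (hB z hz).2)
      apply Nat.cast_le.2
      apply Finset.card_le_card
      intro n hn
      rw [Finset.mem_filter] at hn ⊢
      exact ⟨PW_sub_Icc x1p hn.1, (mem_PW hn.1).1, hn.2⟩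
  obtain ⟨C2, hC2, K2, hE2⟩ := hE2
  refine ⟨c0 / 2, by positivity, 1 + 2 * (C1 + C2) / c0, by positivity, fun δ hδ => ?_⟩
  obtain ⟨K0, hK0⟩ := hdeg δ hδ
  refine ⟨max (max K0 K1) (max K2 3), fun k hk B hB hcard => ?_⟩
  have hkK0 : K0 ≤ k := le_trans (le_trans (le_max_left _ _) (le_max_left _ _)) hk
  have hkK1 : K1 ≤ k := le_trans (le_trans (le_max_right _ _) (le_max_left _ _)) hk
  have hkK2 : K2 ≤ k := le_trans (le_trans (le_max_left _ _) (le_max_right _ _)) hk
  have hk3 : 3 ≤ k := le_trans (le_trans (le_max_right _ _) (le_max_right _ _)) hk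
  have hk3' : (3 : ℝ) ≤ k := by exact_mod_cast hk3
  have hL : 0 < log k := log_pos (by linarith)
  have hkpos : (0 : ℝ) < k := by linarith
  set M : ℝ := k / (log k) ^ 2 with hM
  have hMpos : 0 < M := by positivity
  set P := PW k x0 x1 with hP
  set S1 := P.filter (fun x => ((nb a b y0 y1 k x).card : ℝ) < c0 * k / (log k) ^ 2) with hS1
  have hS1card : (S1.card : ℝ) ≤ δ * k / log k := hK0 k hkK0
  set S := P.filter (fun x => ((cnb ⟨a, b, x0, x1, y0, y1⟩ k B x).card : ℝ)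
    < c0 / 2 * k / (log k) ^ 2) with hS
  -- first double count
  have hE1 : ∑ x ∈ P, (((nb a b y0 y1 k x).filter (fun p => p ∈ B)).card : ℝ)
      ≤ B.card * (C1 * k / (log k) ^ 2) := by
    have h3 : ∑ x ∈ P, (((nb a b y0 y1 k x).filter (fun p => p ∈ B)).card : ℝ)
        ≤ ∑ x ∈ P, ((B.filter (fun z : ℕ => PInt (a * x + b * z))).card : ℝ) := by
      apply Finset.sum_le_sum
      intro x hx
      apply Nat.cast_le.2
      apply Finset.card_le_card
      intro p hp
      rw [Finset.mem_filter] at hp ⊢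
      exact ⟨hp.2, (Finset.mem_filter.1 hp.1).2⟩
    refine h3.trans ?_
    apply dc
    intro z hz
    refine le_trans ?_ (hup1 k hkK1 z (hB z hz).1 (hB z hz).2)
    apply Nat.cast_le.2
    apply Finset.card_le_card
    intro n hn
    rw [Finset.mem_filter] at hn ⊢
    exact ⟨PW_sub_Icc x1p hn.1, (mem_PW hn.1).1, hn.2⟩
  have hE2' := hE2 k hkK2 B hB
  -- lower bound on the removed edges
  have hlow : ∀ x ∈ S \ S1, c0 / 2 * M ≤
      (((nb a b y0 y1 k x).filter (fun p => p ∈ B)).card : ℝ) +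
      (((nb a b y0 y1 k x).filter (fun p : ℕ => ∃ q ∈ B, (q : ℤ) = a * x + b * p)).card : ℝ) := by
    intro x hx
    rw [Finset.mem_sdiff] at hx
    obtain ⟨hxS, hxS1⟩ := hx
    rw [hS, Finset.mem_filter] at hxS
    rw [hS1, Finset.mem_filter] at hxS1
    have h1 : c0 * k / (log k) ^ 2 ≤ ((nb a b y0 y1 k x).card : ℝ) := by
      by_contra hcon
      exact hxS1 ⟨hxS.1, not_le.1 hcon⟩
    have h2 := hxS.2
    have h3 : (nb a b y0 y1 k x) ⊆ (cnb ⟨a, b, x0, x1, y0, y1⟩ k B x) ∪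
        ((nb a b y0 y1 k x).filter (fun p => p ∈ B) ∪
        (nb a b y0 y1 k x).filter (fun p : ℕ => ∃ q ∈ B, (q : ℤ) = a * x + b * p)) := by
      intro p hp
      rw [Finset.mem_union, Finset.mem_union]
      by_cases hpB : p ∈ B
      · right; left; exact Finset.mem_filter.2 ⟨hp, hpB⟩
      · by_cases hq : ∃ q ∈ B, (q : ℤ) = a * x + b * p
        · right; right; exact Finset.mem_filter.2 ⟨hp, hq⟩
        · left
          push Not at hq
          exact Finset.mem_filter.2 ⟨hp, hpB, hq⟩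
    have h4 : ((nb a b y0 y1 k x).card : ℝ) ≤
        ((cnb ⟨a, b, x0, x1, y0, y1⟩ k B x).card : ℝ) +
        ((((nb a b y0 y1 k x).filter (fun p => p ∈ B)).card : ℝ) +
        (((nb a b y0 y1 k x).filter (fun p : ℕ => ∃ q ∈ B, (q : ℤ) = a * x + b * p)).card : ℝ)) := by
      have := (Finset.card_le_card h3).trans
        ((Finset.card_union_le _ _).trans (Nat.add_le_add_left (Finset.card_union_le _ _) _))
      exact_mod_cast this
    have h5 : c0 * k / (log k) ^ 2 = c0 * M := by rw [hM]; ring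
    have h6 : c0 / 2 * k / (log k) ^ 2 = c0 / 2 * M := by rw [hM]; ring
    rw [h5] at h1
    rw [h6] at h2
    linarith
  have hsum : ((S \ S1).card : ℝ) * (c0 / 2 * M) ≤ B.card * ((C1 + C2) * M) := by
    calc ((S \ S1).card : ℝ) * (c0 / 2 * M) = ∑ x ∈ S \ S1, (c0 / 2 * M) := by simp
      _ ≤ ∑ x ∈ S \ S1, ((((nb a b y0 y1 k x).filter (fun p => p ∈ B)).card : ℝ) +
      (((nb a b y0 y1 k x).filter (fun p : ℕ => ∃ q ∈ B, (q : ℤ) = a * x + b * p)).card : ℝ)) :=
        Finset.sum_le_sum hlow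
      _ ≤ ∑ x ∈ P, ((((nb a b y0 y1 k x).filter (fun p => p ∈ B)).card : ℝ) +
      (((nb a b y0 y1 k x).filter (fun p : ℕ => ∃ q ∈ B, (q : ℤ) = a * x + b * p)).card : ℝ)) := by
        apply Finset.sum_le_sum_of_subset_of_nonneg
        · intro x hx
          exact (Finset.mem_filter.1 (Finset.mem_sdiff.1 hx).1).1
        · intro x _ _
          positivity
      _ ≤ B.card * (C1 * k / (log k) ^ 2) + B.card * (C2 * k / (log k) ^ 2) := by
        rw [Finset.sum_add_distrib]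
        exact add_le_add hE1 hE2'
      _ = B.card * ((C1 + C2) * M) := by rw [hM]; ring
  have hSS : ((S \ S1).card : ℝ) ≤ 2 * (C1 + C2) / c0 * B.card := by
    rw [div_mul_eq_mul_div, le_div_iff₀ hc0]
    have : ((S \ S1).card : ℝ) * c0 * M ≤ 2 * (C1 + C2) * B.card * M := by nlinarith
    exact le_of_mul_le_mul_right this hMpos
  have hfin : (S.card : ℝ) ≤ (S1.card : ℝ) + ((S \ S1).card : ℝ) := by
    have h1 : S ⊆ S1 ∪ (S \ S1) := by
      intro x hx
      rw [Finset.mem_union, Finset.mem_sdiff]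
      by_cases h : x ∈ S1
      · left; exact h
      · right; exact ⟨hx, h⟩
    exact_mod_cast (Finset.card_le_card h1).trans (Finset.card_union_le _ _)
  calc (S.card : ℝ) ≤ δ * k / log k + 2 * (C1 + C2) / c0 * (δ * k / log k) := by
        refine hfin.trans (add_le_add hS1card (hSS.trans ?_))
        exact mul_le_mul_of_nonneg_left hcard (by positivity)
    _ = (1 + 2 * (C1 + C2) / c0) * δ * k / log k := by ring

open Classical in
/-- one cleaning step for a list of relations -/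
theorem step (hD : DegMinus) (hU : Up) (R : List Rel) (hR : ∀ ρ ∈ R, ρ.Ok) :
    ∃ c : ℝ, 0 < c ∧ ∃ C : ℝ, 0 < C ∧ ∀ δ : ℝ, 0 < δ → ∃ K : ℕ, ∀ k : ℕ, K ≤ k →
      ∀ B : Finset ℕ, (∀ z ∈ B, z.Prime ∧ (k : ℝ) / 100 ≤ z) → (B.card : ℝ) ≤ δ * k / log k →
      ∃ B' : Finset ℕ, B ⊆ B' ∧ (∀ z ∈ B', z.Prime ∧ (k : ℝ) / 100 ≤ z) ∧
        (B'.card : ℝ) ≤ C * δ * k / log k ∧
        ∀ ρ ∈ R, ∀ x ∈ PW k ρ.x0 ρ.x1, x ∉ B' → c * k / (log k) ^ 2 ≤ ((cnb ρ k B x).card : ℝ) := by
  induction R with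
  | nil =>
    refine ⟨1, one_pos, 1, one_pos, fun δ hδ => ⟨0, fun k _ B hB hc => ⟨B, subset_rfl, hB, ?_, ?_⟩⟩⟩
    · rwa [one_mul]
    · simp
  | cons ρ R ih =>
    obtain ⟨c, hc, C, hC, h1⟩ := ih (fun ρ hρ => hR ρ (List.mem_cons_of_mem _ hρ))
    obtain ⟨c', hc', C', hC', h2⟩ := clean hD hU ρ (hR ρ List.mem_cons_self)
    refine ⟨min c c', lt_min hc hc', C + C', by positivity, fun δ hδ => ?_⟩
    obtain ⟨K, hK⟩ := h1 δ hδ
    obtain ⟨K', hK'⟩ := h2 δ hδ
    refine ⟨max (max K K') 3, fun k hk B hB hcard => ?_⟩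
    have hk3 : 3 ≤ k := (le_max_right _ _).trans hk
    have hk3' : (3 : ℝ) ≤ k := by exact_mod_cast hk3
    have hL : 0 < log k := log_pos (by linarith)
    obtain ⟨B', hBB, hB', hB'c, hR'⟩ := hK k
      (((le_max_left _ _).trans (le_max_left _ _)).trans hk) B hB hcard
    have h3 := hK' k (((le_max_right _ _).trans (le_max_left _ _)).trans hk) B hB hcard
    set S := (PW k ρ.x0 ρ.x1).filter
          (fun x => ((cnb ρ k B x).card : ℝ) < c' * k / (log k) ^ 2) with hS
    refine ⟨B' ∪ S, hBB.trans Finset.subset_union_left, ?_, ?_, ?_⟩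
    · intro z hz
      rcases Finset.mem_union.1 hz with hz | hz
      · exact hB' z hz
      · have h4 := mem_PW (Finset.mem_filter.1 hz).1
        have h5 := (hR ρ List.mem_cons_self).x0p
        refine ⟨h4.1, le_trans ?_ h4.2.1.le⟩
        nlinarith
    · have h4 : ((B' ∪ S).card : ℝ) ≤ B'.card + S.card := by
        exact_mod_cast Finset.card_union_le _ _
      calc _ ≤ _ := h4
        _ ≤ C * δ * k / log k + C' * δ * k / log k := add_le_add hB'c h3
        _ = _ := by ring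
    · intro ρ' hρ' x hx hxB
      rw [Finset.mem_union, not_or] at hxB
      have hnn : (0 : ℝ) ≤ k / (log k) ^ 2 := by positivity
      rcases List.mem_cons.1 hρ' with rfl | hρ'
      · have h5 : c' * k / (log k) ^ 2 ≤ ((cnb ρ' k B x).card : ℝ) := by
          by_contra hcon
          exact hxB.2 (Finset.mem_filter.2 ⟨hx, not_le.1 hcon⟩)
        refine le_trans ?_ h5
        rw [mul_div_assoc, mul_div_assoc]
        exact mul_le_mul_of_nonneg_right (min_le_right _ _) hnn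
      · refine le_trans ?_ (hR' ρ' hρ' x hx hxB.1)
        rw [mul_div_assoc, mul_div_assoc]
        exact mul_le_mul_of_nonneg_right (min_le_left _ _) hnn

end Pool.Agent.Helper91_SP
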