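import Pool.Agent.Helper91_SP.Defs
import Pool.Agent.Common_PNT.PNT

/-!
# Prime counts from the prime number theorem
-/

set_option autoImplicit false

namespace Pool.Agent.Helper91_SP

open Real Filter Topology

lemma theta_near (η : ℝ) (hη : 0 < η) :
    ∃ X : ℝ, 0 < X ∧ ∀ x : ℝ, X ≤ x → (1 - η) * x ≤ Chebyshev.theta x ∧
      Chebyshev.theta x ≤ (1 + η) * x := by
  have h := Pool.Agent.Common_PNT.tendsto_theta_div
  have h1 := (Metric.tendsto_nhds.1 h) η hη
  obtain ⟨X, hX⟩ := eventually_atTop.1 h1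
  refine ⟨max X 1, by positivity, fun x hx => ?_⟩
  have hx1 : (1 : ℝ) ≤ x := (le_max_right _ _).trans hx
  have hx0 : 0 < x := by linarith
  have h2 := hX x ((le_max_left _ _).trans hx)
  rw [Real.dist_eq, abs_lt] at h2
  have h3 : Chebyshev.theta x = Chebyshev.theta x / x * x := by field_simp
  rw [h3]
  constructor
  · exact mul_le_mul_of_nonneg_right (by linarith) hx0.le
  · exact mul_le_mul_of_nonneg_right (by linarith) hx0.le

lemma PW_lower (x0 x1 : ℝ) (h0 : 0 < x0) (h01 : x0 < x1) (h1 : x1 ≤ 1) :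
    ∃ K : ℕ, ∀ k : ℕ, K ≤ k → (x1 - x0) / 2 * k / log k ≤ ((PW k x0 x1).card : ℝ) := by
  obtain ⟨X, hX, hθ⟩ := theta_near ((x1 - x0) / 4) (by linarith)
  refine ⟨⌈X / x0⌉₊ + 3, fun k hk => ?_⟩
  have hk3' : (3 : ℝ) ≤ k := by
    have : 3 ≤ k := by omega
    exact_mod_cast this
  have hkX : X ≤ x0 * k := by
    have h2 : X / x0 ≤ k := (Nat.le_ceil _).trans (by exact_mod_cast (by omega))
    rw [div_le_iff₀ h0] at h2
    linarith
  have hL : 0 < log k := log_pos (by linarith)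
  have hx1k : X ≤ x1 * k := by nlinarith
  obtain ⟨-, h3⟩ := hθ (x0 * k) hkX
  obtain ⟨h4, -⟩ := hθ (x1 * k) hx1k
  have hsub : Finset.Ioc 0 ⌊x0 * (k : ℝ)⌋₊ ⊆ Finset.Ioc 0 ⌊x1 * (k : ℝ)⌋₊ := by
    apply Finset.Ioc_subset_Ioc_right
    apply Nat.floor_le_floor
    nlinarith
  have h5 : Chebyshev.theta (x1 * k) - Chebyshev.theta (x0 * k)
      ≤ (PW k x0 x1).card * log k := by
    unfold Chebyshev.theta
    rw [← Finset.sum_sdiff (Finset.filter_subset_filter _ hsub), add_sub_cancel_right]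
    have h6 : (Finset.filter Nat.Prime (Finset.Ioc 0 ⌊x1 * (k : ℝ)⌋₊)) \
        (Finset.filter Nat.Prime (Finset.Ioc 0 ⌊x0 * (k : ℝ)⌋₊)) ⊆ PW k x0 x1 := by
      intro p hp
      rw [Finset.mem_sdiff, Finset.mem_filter, Finset.mem_filter, Finset.mem_Ioc,
        Finset.mem_Ioc] at hp
      obtain ⟨⟨⟨hp0, hp1⟩, hpp⟩, hn⟩ := hp
      unfold PW
      rw [Finset.mem_filter, Finset.mem_range]
      refine ⟨by omega, hpp, ?_, ?_⟩
      · by_contra hcon
        push Not at hcon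
        apply hn
        refine ⟨⟨hp0, ?_⟩, hpp⟩
        exact Nat.le_floor hcon
      · exact (Nat.le_floor_iff (mul_nonneg (by linarith) (by linarith))).1 hp1
    refine (Finset.sum_le_sum_of_subset_of_nonneg h6 ?_).trans ?_
    · intro p hp _
      exact log_natCast_nonneg p
    · rw [← nsmul_eq_mul]
      apply Finset.sum_le_card_nsmul
      intro p hp
      have h7 := (Finset.mem_filter.1 hp).2
      apply log_le_log
      · exact_mod_cast h7.1.pos
      · nlinarith [h7.2.2]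
  rw [div_le_iff₀ hL]
  refine le_trans ?_ h5
  have h8 : 0 ≤ (x1 - x0) * k * (2 - x0 - x1) :=
    mul_nonneg (mul_nonneg (by linarith) (by linarith)) (by linarith)
  nlinarith

lemma Z_upper (ε : ℝ) (hε : 0 < ε) (hε1 : ε ≤ 1) :
    ∃ K : ℕ, ∀ k : ℕ, K ≤ k →
      (((Finset.Icc k (⌊ε * k⌋₊ + k)).filter Nat.Prime).card : ℝ) ≤ 3 * ε * k / log k := by
  obtain ⟨X, hX, hθ⟩ := theta_near (ε / 3) (by linarith)
  -- log k ≤ ε k eventually
  have hlog : ∀ᶠ x : ℝ in atTop, log x ≤ ε * x := by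
    have := Real.isLittleO_log_id_atTop.bound hε
    filter_upwards [this, eventually_ge_atTop 1] with x hx hx1
    rw [Real.norm_of_nonneg (log_nonneg hx1), id, Real.norm_of_nonneg (by linarith)] at hx
    exact hx
  obtain ⟨Y, hY⟩ := eventually_atTop.1 hlog
  refine ⟨⌈X⌉₊ + ⌈Y⌉₊ + 3, fun k hk => ?_⟩
  have hk3' : (3 : ℝ) ≤ k := by
    have : 3 ≤ k := by omega
    exact_mod_cast this
  have hkX : X ≤ k := (Nat.le_ceil _).trans (by exact_mod_cast (by omega))
  have hkY : Y ≤ k := (Nat.le_ceil _).trans (by exact_mod_cast (by omega))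
  have hL : 0 < log k := log_pos (by linarith)
  have hlk := hY k hkY
  obtain ⟨h3, -⟩ := hθ k hkX
  obtain ⟨-, h4⟩ := hθ (((⌊ε * k⌋₊ + k : ℕ) : ℝ)) (by push_cast; nlinarith [(Nat.cast_nonneg ⌊ε * (k:ℝ)⌋₊ : (0:ℝ) ≤ _)])
  have hfl : ((⌊ε * (k : ℝ)⌋₊ : ℕ) : ℝ) ≤ ε * k := Nat.floor_le (by positivity)
  have hsub : Finset.Ioc 0 k ⊆ Finset.Ioc 0 (⌊ε * (k : ℝ)⌋₊ + k) :=
    Finset.Ioc_subset_Ioc_right (by omega)
  set Z := (Finset.Icc k (⌊ε * (k : ℝ)⌋₊ + k)).filter Nat.Prime with hZ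
  have h5 : (Z.card : ℝ) * log k ≤ Chebyshev.theta (((⌊ε * k⌋₊ + k : ℕ) : ℝ))
      - Chebyshev.theta k + log k := by
    unfold Chebyshev.theta
    rw [Nat.floor_natCast, Nat.floor_natCast,
      ← Finset.sum_sdiff (Finset.filter_subset_filter _ hsub), add_sub_cancel_right]
    have h6 : Z ⊆ ((Finset.filter Nat.Prime (Finset.Ioc 0 (⌊ε * (k : ℝ)⌋₊ + k))) \
        (Finset.filter Nat.Prime (Finset.Ioc 0 k))) ∪ {k} := by
      intro p hp
      rw [hZ, Finset.mem_filter, Finset.mem_Icc] at hp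
      rw [Finset.mem_union, Finset.mem_sdiff, Finset.mem_filter, Finset.mem_filter,
        Finset.mem_Ioc, Finset.mem_Ioc, Finset.mem_singleton]
      by_cases hpk : p = k
      · right; exact hpk
      · left
        refine ⟨⟨⟨hp.2.pos, hp.1.2⟩, hp.2⟩, ?_⟩
        rintro ⟨⟨_, h⟩, _⟩
        omega
    calc (Z.card : ℝ) * log k = ∑ p ∈ Z, log k := by simp
      _ ≤ ∑ p ∈ Z, log p := by
        apply Finset.sum_le_sum
        intro p hp
        rw [hZ, Finset.mem_filter, Finset.mem_Icc] at hp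
        apply log_le_log (by linarith)
        exact_mod_cast hp.1.1
      _ ≤ ∑ p ∈ ((Finset.filter Nat.Prime (Finset.Ioc 0 (⌊ε * (k : ℝ)⌋₊ + k))) \
        (Finset.filter Nat.Prime (Finset.Ioc 0 k))) ∪ {k}, log p := by
        apply Finset.sum_le_sum_of_subset_of_nonneg h6
        intro p _ _
        exact log_natCast_nonneg p
      _ ≤ _ := by
        have := Finset.sum_union_inter (s₁ := ((Finset.filter Nat.Prime (Finset.Ioc 0 (⌊ε * (k : ℝ)⌋₊ + k))) \
        (Finset.filter Nat.Prime (Finset.Ioc 0 k)))) (s₂ := {k}) (f := fun p : ℕ => log (p : ℝ))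
        have h8 : 0 ≤ ∑ p ∈ ((Finset.filter Nat.Prime (Finset.Ioc 0 (⌊ε * (k : ℝ)⌋₊ + k))) \
        (Finset.filter Nat.Prime (Finset.Ioc 0 k))) ∩ {k}, log (p : ℝ) := by
          apply Finset.sum_nonneg
          intro p _
          exact log_natCast_nonneg p
        rw [Finset.sum_singleton] at this
        linarith
  rw [le_div_iff₀ hL]
  refine h5.trans ?_
  push_cast at h4
  push_cast
  have h9 : (1 + ε / 3) * ((⌊ε * (k : ℝ)⌋₊ : ℝ) + k) ≤ (1 + ε / 3) * (ε * k + k) :=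
    mul_le_mul_of_nonneg_left (by linarith) (by positivity)
  have h10 : ε * ε * k ≤ ε * k := by nlinarith [mul_pos hε (show (0:ℝ) < k by linarith)]
  nlinarith

end Pool.Agent.Helper91_SP
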