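import Pool.Agent.Helper91_SP.Finish

/-!
# The folded gadget (63 primes, 94 multiples, 32 pair patterns)
-/

set_option autoImplicit false

namespace Pool.Agent.Helper91_SP

/-- index type of the primes of a gadget -/
abbrev Ix : Type := (Bool × (Fin 6 ⊕ Fin 8)) ⊕ (Fin 3 ⊕ ((Bool × Fin 4 × Bool) × Bool))

/-- index type of the pair patterns -/
abbrev Pat : Type := (Bool × Fin 4) ⊕ ((Bool × Fin 4) ⊕ (Bool × Fin 8))

instance instDecIx : DecidableEq Ix := inferInstance

instance instDecPat : DecidableEq Pat := inferInstance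

/-- index of the `i`-th short prime `y_i` -/
def yi : Fin 4 → Fin 6
  | 0 => 2
  | 1 => 3
  | 2 => 4
  | 3 => 5

/-- the primes of the gadget -/
def fv (x : Bool → Fin 6 → ℕ) (e : Bool → Fin 8 → ℕ) (t : Fin 3 → ℕ)
    (w : Bool × Fin 4 × Bool → ℕ) : Ix → ℕ
  | .inl (b, .inl i) => x b i
  | .inl (b, .inr j) => e b j
  | .inr (.inl i) => t i
  | .inr (.inr ((b, i, c), false)) => w (b, i, c)
  | .inr (.inr ((b, i, c), true)) => w (b, i, c) + 2 * x b (yi i)

/-- number of multiples -/
def NN : Ix → ℕ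
  | .inl (_, .inl 0) => 2
  | .inl (_, .inl 1) => 2
  | .inl (_, .inl _) => 4
  | .inl (_, .inr _) => 1
  | .inr (.inl _) => 2
  | .inr (.inr _) => 1

/-- the mover of a pattern -/
def mv : Pat → Ix
  | .inl (b, i) => .inl (b, .inl (yi i))
  | .inr (.inl (b, i)) => .inr (.inr ((b, i, true), false))
  | .inr (.inr (b, 0)) => .inl (b, .inl 0)
  | .inr (.inr (b, 1)) => .inl (b, .inr 1)
  | .inr (.inr (b, 2)) => .inl (b, .inr 2)
  | .inr (.inr (b, 3)) => .inl (b, .inr 3)
  | .inr (.inr (b, 4)) => .inl (b, .inl 1)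
  | .inr (.inr (false, 5)) => .inr (.inl 0)
  | .inr (.inr (false, 6)) => .inr (.inl 1)
  | .inr (.inr (false, 7)) => .inr (.inl 2)
  | .inr (.inr (true, 5)) => .inl (true, .inr 5)
  | .inr (.inr (true, 6)) => .inl (true, .inr 6)
  | .inr (.inr (true, 7)) => .inl (true, .inr 7)

/-- the two tokens of a pattern -/
def tk : Pat → Bool → Ix × ℕ
  | .inl (b, i), true => (.inr (.inr ((b, i, false), false)), 1)
  | .inl (b, i), false => (.inr (.inr ((b, i, false), true)), 1)
  | .inr (.inl (b, i)), true => (.inl (b, .inl (yi i)), 2)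
  | .inr (.inl (b, i)), false => (.inr (.inr ((b, i, true), true)), 1)
  | .inr (.inr (b, 0)), true => (.inl (b, .inl 2), 1)
  | .inr (.inr (b, 0)), false => (.inl (b, .inr 0), 1)
  | .inr (.inr (b, 1)), true => (.inl (b, .inl 3), 1)
  | .inr (.inr (b, 1)), false => (.inl (b, .inl 0), 2)
  | .inr (.inr (b, 2)), true => (.inl (b, .inl 0), 1)
  | .inr (.inr (b, 2)), false => (.inl (b, .inl 5), 4)
  | .inr (.inr (b, 3)), true => (.inl (b, .inl 5), 1)
  | .inr (.inr (b, 3)), false => (.inl (b, .inl 1), 2)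
  | .inr (.inr (b, 4)), true => (.inl (b, .inl 4), 1)
  | .inr (.inr (b, 4)), false => (.inl (b, .inr 4), 1)
  | .inr (.inr (false, 5)), true => (.inl (false, .inr 5), 1)
  | .inr (.inr (false, 6)), true => (.inl (false, .inr 6), 1)
  | .inr (.inr (false, 7)), true => (.inl (false, .inr 7), 1)
  | .inr (.inr (true, 5)), true => (.inr (.inl 0), 1)
  | .inr (.inr (true, 6)), true => (.inr (.inl 1), 1)
  | .inr (.inr (true, 7)), true => (.inr (.inl 2), 1)
  | .inr (.inr (b, 5)), false => (.inl (b, .inl 2), 4)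
  | .inr (.inr (b, 6)), false => (.inl (b, .inl 3), 4)
  | .inr (.inr (b, 7)), false => (.inl (b, .inl 4), 4)

lemma mv_injective : Function.Injective mv := by
  have h : ∀ a b : Pat, mv a = mv b → a = b := by decide +kernel
  exact fun a b hab => h a b hab

lemma tk_injective : Function.Injective (fun q : Pat × Bool => tk q.1 q.2) := by
  have h : ∀ a b : Pat × Bool, tk a.1 a.2 = tk b.1 b.2 → a = b := by decide +kernel
  exact fun a b hab => h a b hab

lemma tk_valid : ∀ q b, 1 ≤ (tk q b).2 ∧ (tk q b).2 ≤ NN (tk q b).1 := by decide +kernel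

lemma count : ∑ i, NN i + 1 ≤ Fintype.card Ix + Fintype.card Pat := by decide +kernel

theorem gadget {m k : ℕ} (hm : 200 * m ≤ k) (x : Bool → Fin 6 → ℕ)
    (e : Bool → Fin 8 → ℕ)
    (t : Fin 3 → ℕ) (w : Bool × Fin 4 × Bool → ℕ)
    (hinj : Function.Injective (fv x e t w)) (hprime : ∀ i, (fv x e t w i).Prime)
    (hx0 : ∀ b, 374 * k < 1000 * x b 0 ∧ 1000 * x b 0 ≤ 376 * k)
    (hx1 : ∀ b, 374 * k < 1000 * x b 1 ∧ 1000 * x b 1 ≤ 376 * k)
    (hy : ∀ b i, 239 * k < 1000 * x b (yi i) ∧ 1000 * x b (yi i) ≤ 241 * k)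
    (ht : ∀ i, 399 * k < 1000 * t i ∧ 1000 * t i ≤ 401 * k)
    (hw : ∀ j, 505 * k < 1000 * w j ∧ 1000 * w j ≤ 515 * k)
    (he0 : ∀ b, e b 0 = 2 * x b 0 + x b 2)
    (he1 : ∀ b, e b 1 + x b 3 = 2 * x b 0)
    (he2 : ∀ b, e b 2 + x b 0 = 4 * x b 5)
    (he3 : ∀ b, e b 3 + x b 5 = 2 * x b 1)
    (he4 : ∀ b, e b 4 = 2 * x b 1 + x b 4)
    (he5 : ∀ b, e b 5 + t 0 = 4 * x b 2)
    (he6 : ∀ b, e b 6 + t 1 = 4 * x b 3)
    (he7 : ∀ b, e b 7 + t 2 = 4 * x b 4) (z : ℕ) :
    ∃ r, Good m k (Finset.univ.image (fv x e t w)) r ∧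
      Cov (Finset.univ.image (fv x e t w)) r z := by
  have hy0 := fun b => hy b 0
  have hy1 := fun b => hy b 1
  have hy2 := fun b => hy b 2
  have hy3 := fun b => hy b 3
  simp only [yi] at hy0 hy1 hy2 hy3
  have key : ∀ i, k < 5 * fv x e t w i ∧ fv x e t w i < k ∧
      m + k < (NN i + 1) * fv x e t w i := by
    rintro (⟨b, i | j⟩ | i | ⟨⟨b, i, c⟩, h⟩)
    · have := hx0 b; have := hx1 b; have := hy0 b; have := hy1 b; have := hy2 b; have := hy3 b
      fin_cases i <;> simp only [fv, NN] <;> refine ⟨?_, ?_, ?_⟩ <;> simp <;> omega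
    · have := hx0 b; have := hx1 b; have := hy0 b; have := hy1 b; have := hy2 b; have := hy3 b
      have := he0 b; have := he1 b; have := he2 b; have := he3 b; have := he4 b; have := he5 b
      have := he6 b; have := he7 b; have := ht 0; have := ht 1; have := ht 2
      fin_cases j <;> simp only [fv, NN] <;> refine ⟨?_, ?_, ?_⟩ <;> simp <;> omega
    · have := ht i
      simp only [fv, NN]
      omega
    · have := hw (b, i, c)
      have := hy b i
      cases h
      · simp only [fv, NN]; omega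
      · simp only [fv, NN]; omega
  refine finish (fv x e t w) hinj hprime (fun i => (key i).1) (fun i => (key i).2.1) NN ?_ mv
    mv_injective tk tk_injective tk_valid ?_ count z
  · intro i c h1 h2
    have h3 := (key i).2.2
    refine ⟨?_, ?_⟩
    · rcases Nat.eq_zero_or_pos c with rfl | h
      · simp at h1
      · exact h
    · by_contra hc
      push Not at hc
      have : (NN i + 1) * fv x e t w i ≤ c * fv x e t w i := Nat.mul_le_mul_right _ hc
      omega
  · have aux : ∀ a b p : ℕ, (∃ c, b = a + c * p) → a ≡ b [MOD p] := by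
      rintro a b p ⟨c, rfl⟩
      simp [Nat.ModEq]
    rintro (⟨b, i⟩ | ⟨b, i⟩ | ⟨b, j⟩)
    · apply aux
      exact ⟨2, by simp [tk, fv, mv]⟩
    · apply aux
      exact ⟨1, by simp [tk, fv, mv]; ring⟩
    · have h0 := he0 b; have h1 := he1 b; have h2 := he2 b; have h3 := he3 b
      have h4 := he4 b; have h5 := he5 b
      have h6 := he6 b; have h7 := he7 b
      apply aux
      fin_cases j
      · exact ⟨2, by simp only [tk, fv, mv]; omega⟩
      · exact ⟨1, by simp only [tk, fv, mv]; omega⟩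
      · exact ⟨1, by simp only [tk, fv, mv]; omega⟩
      · exact ⟨1, by simp only [tk, fv, mv]; omega⟩
      · exact ⟨2, by simp only [tk, fv, mv]; omega⟩
      · cases b
        · exact ⟨1, by simp only [tk, fv, mv]; omega⟩
        · exact ⟨1, by simp only [tk, fv, mv]; omega⟩
      · cases b
        · exact ⟨1, by simp only [tk, fv, mv]; omega⟩
        · exact ⟨1, by simp only [tk, fv, mv]; omega⟩
      · cases b
        · exact ⟨1, by simp only [tk, fv, mv]; omega⟩
        · exact ⟨1, by simp only [tk, fv, mv]; omega⟩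

end Pool.Agent.Helper91_SP
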