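import Pool.Agent.Helper91_SP.Defs

/-!
# Covering systems of residue classes: union, CRT assembly, greedy insertion
-/

set_option autoImplicit false

namespace Pool.Agent.Helper91_SP

/-- `x` is covered by some `p ∈ D` with residue `r p` -/
def Cov (D : Finset ℕ) (r : ℕ → ℕ) (x : ℕ) : Prop := ∃ p ∈ D, x ≡ r p [MOD p]

/-- all multiples of elements of `D` in `(m, m + k]` are covered -/
structure Good (m k : ℕ) (D : Finset ℕ) (r : ℕ → ℕ) : Prop where
  prime : ∀ p ∈ D, p.Prime
  lower : ∀ p ∈ D, k < 5 * p
  upper : ∀ p ∈ D, p < k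
  cov : ∀ x, m < x → x ≤ m + k → ∀ p ∈ D, p ∣ x → Cov D r x

open Classical in
lemma Cov.left {D D' : Finset ℕ} {r r' : ℕ → ℕ} {x : ℕ} (h : Cov D r x) :
    Cov (D ∪ D') (fun p => if p ∈ D then r p else r' p) x := by
  obtain ⟨p, hp, h⟩ := h
  exact ⟨p, Finset.mem_union_left _ hp, by simpa [hp] using h⟩

open Classical in
lemma Cov.right {D D' : Finset ℕ} {r r' : ℕ → ℕ} {x : ℕ} (hd : Disjoint D D')
    (h : Cov D' r' x) : Cov (D ∪ D') (fun p => if p ∈ D then r p else r' p) x := by
  obtain ⟨p, hp, h⟩ := h
  have hn : p ∉ D := fun h' => Finset.disjoint_left.1 hd h' hp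
  exact ⟨p, Finset.mem_union_right _ hp, by simpa [hn] using h⟩

open Classical in
lemma Good.union {m k : ℕ} {D D' : Finset ℕ} {r r' : ℕ → ℕ} (h : Good m k D r)
    (h' : Good m k D' r') (hd : Disjoint D D') :
    Good m k (D ∪ D') (fun p => if p ∈ D then r p else r' p) where
  prime := by
    intro p hp
    rcases Finset.mem_union.1 hp with hp | hp
    · exact h.prime p hp
    · exact h'.prime p hp
  lower := by
    intro p hp
    rcases Finset.mem_union.1 hp with hp | hp
    · exact h.lower p hp
    · exact h'.lower p hp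
  upper := by
    intro p hp
    rcases Finset.mem_union.1 hp with hp | hp
    · exact h.upper p hp
    · exact h'.upper p hp
  cov := by
    intro x hx hx' p hp hpx
    rcases Finset.mem_union.1 hp with hp | hp
    · exact (h.cov x hx hx' p hp hpx).left
    · exact (h'.cov x hx hx' p hp hpx).right hd

/-- the small prime part -/
noncomputable def A (n k : ℕ) : ℕ :=
  ∏ p ∈ (Finset.range k).filter Nat.Prime, p ^ (n.factorization p)

theorem crt {m k : ℕ} (hm : m < k) {D : Finset ℕ} {r : ℕ → ℕ} (hD : Good m k D r)
    (hq : ∀ x, k ≤ x → x ≤ m + k → x.Prime → Cov D r x) :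
    ∃ n : ℕ, ∀ i ∈ Finset.Icc 1 k, m < A (n + i) k ∨ k < 5 * A (n + i) k := by
  classical
  set E := m + k with hE
  have hpp : Set.Pairwise (((Finset.range k).filter Nat.Prime : Finset ℕ) : Set ℕ)
      (Function.onFun Nat.Coprime (fun p : ℕ => if p ∈ D then p else p ^ E)) := by
    intro p hp q hq hpq
    simp only [Finset.coe_filter, Finset.mem_range, Set.mem_setOf_eq] at hp hq
    have hc : Nat.Coprime p q := (Nat.coprime_primes hp.2 hq.2).2 hpq
    simp only [Function.onFun]
    split_ifs
    · exact hc
    · exact Nat.Coprime.pow_right _ hc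
    · exact Nat.Coprime.pow_left _ hc
    · exact Nat.Coprime.pow _ _ hc
  have hne : ∀ p ∈ (Finset.range k).filter Nat.Prime,
      (fun p : ℕ => if p ∈ D then p else p ^ E) p ≠ 0 := by
    intro p hp
    have hp' := (Finset.mem_filter.1 hp).2
    simp only
    split_ifs
    · exact hp'.pos.ne'
    · exact (pow_pos hp'.pos _).ne'
  obtain ⟨n, hn⟩ := Nat.chineseRemainderOfFinset
    (fun p => if p ∈ D then m + (p - 1) * r p else m)
    (fun p : ℕ => if p ∈ D then p else p ^ E) _ hne hpp
  refine ⟨n, fun i hi => ?_⟩
  rw [Finset.mem_Icc] at hi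
  set x := m + i with hx
  have hni : n + i ≠ 0 := by omega
  by_cases hc : Cov D r x
  · right
    obtain ⟨p, hp, hpx⟩ := hc
    have hpk := hD.upper p hp
    have hprime := hD.prime p hp
    have hmem : p ∈ (Finset.range k).filter Nat.Prime := by
      simp [hpk, hprime]
    have h1 := hn p hmem
    simp only [hp, if_true] at h1
    have h2 : n + i + r p ≡ x [MOD p] := by
      have h3 : m + (p - 1) * r p + r p ≡ m [MOD p] := by
        have : m + (p - 1) * r p + r p = m + p * r p := by
          obtain ⟨t, ht⟩ : ∃ t, p = t + 1 := ⟨p - 1, by have := hprime.pos; omega⟩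
          rw [ht, Nat.add_sub_cancel]
          ring
        rw [this]
        simp [Nat.ModEq]
      calc n + i + r p = (n + r p) + i := by ring
        _ ≡ (m + (p - 1) * r p + r p) + i [MOD p] := (h1.add_right _).add_right _
        _ ≡ m + i [MOD p] := h3.add_right _
    have h4 : n + i ≡ 0 [MOD p] := by
      have : n + i + r p ≡ 0 + r p [MOD p] := by
        rw [zero_add]; exact h2.trans hpx
      exact Nat.ModEq.add_right_cancel' _ this
    have hdvd : p ∣ n + i := (Nat.modEq_zero_iff_dvd).1 h4
    have h5 : p ∣ A (n + i) k := by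
      have h6 : p ∣ p ^ ((n + i).factorization p) := by
        apply dvd_pow_self
        exact (hprime.factorization_pos_of_dvd hni hdvd).ne'
      exact h6.trans (Finset.dvd_prod_of_mem _ hmem)
    have hpos : 0 < A (n + i) k := by
      apply Finset.prod_pos
      intro q hq
      exact pow_pos (Finset.mem_filter.1 hq).2.pos _
    have := Nat.le_of_dvd hpos h5
    have := hD.lower p hp
    omega
  · left
    have hx0 : x ≠ 0 := by omega
    have hxle : x ≤ E := by omega
    have key : ∀ p ∈ x.primeFactors, p ∈ (Finset.range k).filter Nat.Prime ∧ p ∉ D := by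
      intro p hp
      have hprime := Nat.prime_of_mem_primeFactors hp
      have hdvd := Nat.dvd_of_mem_primeFactors hp
      have hpD : p ∉ D := fun hpD => hc (hD.cov x (by omega) (by omega) p hpD hdvd)
      refine ⟨?_, hpD⟩
      rw [Finset.mem_filter, Finset.mem_range]
      refine ⟨?_, hprime⟩
      by_contra hpk
      push Not at hpk
      obtain ⟨c, hc'⟩ := hdvd
      rcases Nat.lt_or_ge c 2 with hc2 | hc2
      · have : c ≠ 0 := by rintro rfl; simp at hc'; omega
        have : c = 1 := by omega
        subst this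
        rw [mul_one] at hc'
        exact hc (hq x (by omega) (by omega) (by rw [hc']; exact hprime))
      · have : 2 * k ≤ p * c := by nlinarith
        omega
    have hval : ∀ p ∈ x.primeFactors, x.factorization p ≤ (n + i).factorization p := by
      intro p hp
      obtain ⟨hmem, hpD⟩ := key p hp
      have hprime := Nat.prime_of_mem_primeFactors hp
      have h1 := hn p hmem
      simp only [hpD, if_false] at h1
      have h2 : n + i ≡ x [MOD p ^ E] := h1.add_right _
      have h3 : x.factorization p ≤ E := (Nat.factorization_lt p hx0).le.trans hxle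
      have h4 : n + i ≡ x [MOD p ^ x.factorization p] := h2.of_dvd (pow_dvd_pow _ h3)
      have h5 : p ^ x.factorization p ∣ n + i := by
        rw [← Nat.modEq_zero_iff_dvd]
        exact h4.trans ((Nat.modEq_zero_iff_dvd).2 (Nat.ordProj_dvd x p))
      exact (hprime.pow_dvd_iff_le_factorization hni).1 h5
    have hxA : x ≤ A (n + i) k := by
      calc x = ∏ p ∈ x.primeFactors, p ^ x.factorization p :=
            (Nat.factorization_prod_pow_eq_self hx0).symm
        _ ≤ ∏ p ∈ x.primeFactors, p ^ (n + i).factorization p := by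
            apply Finset.prod_le_prod' 
            intro p hp
            exact Nat.pow_le_pow_right (Nat.prime_of_mem_primeFactors hp).pos (hval p hp)
        _ ≤ A (n + i) k := by
            apply Finset.prod_le_prod_of_subset_of_one_le'
            · intro p hp; exact (key p hp).1
            · intro p hp _
              exact Nat.one_le_iff_ne_zero.2 (pow_pos (Finset.mem_filter.1 hp).2.pos _).ne'
    omega

theorem insert_all {m k N c : ℕ}
    (hG : ∀ U : Finset ℕ, (∀ p ∈ U, p.Prime ∧ k < 5 * p ∧ p < k) → U.card ≤ N → ∀ z : ℕ,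
      ∃ D : Finset ℕ, D.card ≤ c ∧ Disjoint D U ∧ ∃ r, Good m k D r ∧ Cov D r z)
    (Z : Finset ℕ) (hZ : c * Z.card ≤ N) :
    ∃ D r, Good m k D r ∧ (∀ z ∈ Z, Cov D r z) ∧ D.card ≤ c * Z.card := by
  classical
  induction Z using Finset.induction_on with
  | empty =>
    refine ⟨∅, fun _ => 0, ⟨by simp, by simp, by simp, by simp⟩, by simp, by simp⟩
  | insert z Z hz ih =>
    rw [Finset.card_insert_of_notMem hz] at hZ
    obtain ⟨D, r, hD, hZc, hcard⟩ := ih (by nlinarith)
    obtain ⟨D', hc', hdis, r', hD', hz'⟩ := hG D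
      (fun p hp => ⟨hD.prime p hp, hD.lower p hp, hD.upper p hp⟩) (by nlinarith) z
    refine ⟨D ∪ D', _, hD.union hD' hdis.symm, ?_, ?_⟩
    · intro w hw
      rcases Finset.mem_insert.1 hw with rfl | hw
      · exact hz'.right hdis.symm
      · exact (hZc w hw).left
    · rw [Finset.card_insert_of_notMem hz]
      have := Finset.card_union_le D D'
      nlinarith

end Pool.Agent.Helper91_SP
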