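import Mathlib

/-!
# Interface for the disproof of `F(k) = o(k)` (frozen statement S17048)

`PW k x0 x1` : primes in `(x0 k, x1 k]`;
`nb a b y0 y1 k x` : primes `p` in `(y0 k, y1 k]` with `a x + b p` prime;
`DegMinus` : almost all primes `x` have at least `c k / log² k` neighbours;
`Up` : sieve upper bound, for every prime `z ≥ k/100`.
-/

set_option autoImplicit false

namespace Pool.Agent.Helper91_SP

open Real

/-- primes in `(x0 k, x1 k]` -/
noncomputable def PW (k : ℕ) (x0 x1 : ℝ) : Finset ℕ :=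
  (Finset.range (⌊x1 * k⌋₊ + 1)).filter (fun p => p.Prime ∧ x0 * k < p ∧ (p : ℝ) ≤ x1 * k)

/-- the integer `z` is a (positive) prime -/
def PInt (z : ℤ) : Prop := ∃ q : ℕ, q.Prime ∧ z = q

open Classical in
/-- primes `p` in `(y0 k, y1 k]` such that `a x + b p` is prime -/
noncomputable def nb (a b : ℤ) (y0 y1 : ℝ) (k x : ℕ) : Finset ℕ :=
  (PW k y0 y1).filter (fun p => PInt (a * x + b * p))

/-- lower bound for almost all primes `x` -/
def DegMinus : Prop :=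
  ∀ (a b : ℤ) (x0 x1 y0 y1 : ℝ), IsCoprime a b → Odd (a + b) → a ≠ 0 → b ≠ 0 →
    0 < x0 → x0 < x1 → 0 < y0 → y0 < y1 →
    (∀ x ∈ Set.Icc x0 x1, ∀ y ∈ Set.Icc y0 y1, 0 < (a : ℝ) * x + b * y) →
    ∃ c : ℝ, 0 < c ∧ ∀ η : ℝ, 0 < η → ∃ K : ℕ, ∀ k : ℕ, K ≤ k →
      (((PW k x0 x1).filter
        (fun x => ((nb a b y0 y1 k x).card : ℝ) < c * k / (log k) ^ 2)).card : ℝ)
        ≤ η * k / log k

open Classical in
/-- uniform sieve upper bound -/
def Up : Prop :=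
  ∀ A D : ℤ, A ≠ 0 → D ≠ 0 → ∃ C : ℝ, 0 < C ∧ ∃ K : ℕ, ∀ k : ℕ, K ≤ k →
    ∀ z : ℕ, z.Prime → (k : ℝ) / 100 ≤ z →
      (((Finset.Icc (1 : ℕ) k).filter (fun n : ℕ => n.Prime ∧ PInt (A * n + D * z))).card : ℝ)
        ≤ C * k / (log k) ^ 2

end Pool.Agent.Helper91_SP
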