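import Pool.Agent.Helper91_SP.MainTerm

/-!
# `DegMinus` from the bilinear estimate
-/

set_option autoImplicit false

namespace Pool.Agent.Helper91_SP

open Real Filter Topology
open Pool.Agent.Helper71_SP (Ew TB MainTerm)

lemma sqrt_log_small (A B : ℝ) (hA : 0 ≤ A) (hB : 0 < B) :
    ∃ K : ℕ, ∀ k : ℕ, K ≤ k → A * √k ≤ B * k / log k := by
  have hpos : 0 < B / (A + 1) := by positivity
  have h1 := (isLittleO_log_rpow_atTop (r := 1 / 2) (by norm_num)).bound hpos
  obtain ⟨X, hX⟩ := eventually_atTop.1 h1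
  refine ⟨⌈X⌉₊ + 3, fun k hk => ?_⟩
  have hk3' : (3 : ℝ) ≤ k := by
    have : 3 ≤ k := by omega
    exact_mod_cast this
  have hk0 : (0 : ℝ) < k := by linarith
  have hL : 0 < log k := log_pos (by linarith)
  have hkX : X ≤ k := (Nat.le_ceil _).trans (Nat.cast_le.2 (by omega))
  have h2 := hX k hkX
  rw [Real.norm_of_nonneg hL.le, ← sqrt_eq_rpow, Real.norm_of_nonneg (sqrt_nonneg _)] at h2
  have hs : 0 < √(k : ℝ) := sqrt_pos.2 hk0
  rw [le_div_iff₀ hL]
  calc A * √k * log k ≤ A * √k * (B / (A + 1) * √k) :=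
        mul_le_mul_of_nonneg_left h2 (by positivity)
    _ = A / (A + 1) * B * (√k * √k) := by field_simp
    _ = A / (A + 1) * B * k := by rw [mul_self_sqrt hk0.le]
    _ ≤ 1 * B * k := by
        apply mul_le_mul_of_nonneg_right _ hk0.le
        apply mul_le_mul_of_nonneg_right _ hB.le
        rw [div_le_one (by linarith)]
        linarith
    _ = B * k := by ring

theorem degMinus_of (hTB : ∀ a b : ℤ, a ≠ 0 → b ≠ 0 → TB a b) : DegMinus := by
  classical
  intro a b x0 x1 y0 y1 hab hodd ha hb hx0 hx01 hy0 hy01 hpos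
  have hMT := mainTerm a b x0 x1 y0 y1 hab hodd hx0 hy0 hy01 hpos
  have hd : 0 < y1 - y0 := by linarith
  refine ⟨(y1 - y0) / 16, by linarith, fun η hη => ?_⟩
  obtain ⟨C3, hC31, hC3x, hC3y, hC3⟩ : ∃ C3 : ℕ, 1 ≤ C3 ∧ x1 ≤ C3 ∧ y1 ≤ C3 ∧
      |(a : ℝ)| * x1 + |(b : ℝ)| * y1 ≤ C3 := by
    refine ⟨1 + ⌈x1⌉₊ + ⌈y1⌉₊ + ⌈|(a : ℝ)| * x1 + |(b : ℝ)| * y1⌉₊, by omega, ?_, ?_, ?_⟩
    · exact (Nat.le_ceil _).trans (Nat.cast_le.2 (by omega))
    · exact (Nat.le_ceil _).trans (Nat.cast_le.2 (by omega))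
    · exact (Nat.le_ceil _).trans (Nat.cast_le.2 (by omega))
  have hC30 : (0 : ℝ) < C3 := by exact_mod_cast hC31
  have hε : 0 < η * (y1 - y0) / (16 * (C3 : ℝ) ^ 2) := by positivity
  obtain ⟨w, hw⟩ := hTB a b ha hb _ hε
  obtain ⟨N0, hN0⟩ := hw w le_rfl
  obtain ⟨K1, hK1⟩ := hMT w
  obtain ⟨C, hC⟩ := Chebyshev.psi_sub_theta_le_mul_sqrt
  obtain ⟨K2, hK2⟩ := sqrt_log_small (max C 0 * √C3) ((y1 - y0) / 16)
    (mul_nonneg (le_max_right _ _) (sqrt_nonneg _)) (by linarith)
  refine ⟨N0 + K1 + K2 + C3 + 3, fun k hk => ?_⟩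
  have hk3' : (3 : ℝ) ≤ k := by
    have : 3 ≤ k := by omega
    exact_mod_cast this
  have hk0 : (0 : ℝ) < k := by linarith
  have hL : 0 < log k := log_pos (by linarith)
  set N := C3 * k with hN
  have hNk : k ≤ N := by rw [hN]; exact Nat.le_mul_of_pos_left k hC31
  have hNk' : (k : ℝ) ≤ N := by exact_mod_cast hNk
  have hlogN1 : log k ≤ log N := log_le_log hk0 hNk'
  have hlogN2 : log N ≤ 2 * log k := by
    have h1 : (N : ℝ) ≤ (k : ℝ) ^ 2 := by
      have : C3 * k ≤ k ^ 2 := by rw [sq]; exact Nat.mul_le_mul_right k (by omega)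
      exact_mod_cast this
    calc log N ≤ log ((k : ℝ) ^ 2) := log_le_log (by linarith) h1
      _ = 2 * log k := by rw [log_pow]; norm_num
  set X := (PW k x0 x1).filter
        (fun x => ((nb a b y0 y1 k x).card : ℝ) < (y1 - y0) / 16 * k / (log k) ^ 2) with hX
  set Y := PW k y0 y1 with hY
  have hPWN : ∀ u0 u1 : ℝ, u1 ≤ C3 → PW k u0 u1 ⊆ (Finset.Icc 1 N).filter Nat.Prime := by
    intro u0 u1 hu p hp
    obtain ⟨hp1, hp2, hp3⟩ := mem_PW' hp
    rw [Finset.mem_filter, Finset.mem_Icc]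
    refine ⟨⟨hp1.pos, ?_⟩, hp1⟩
    have : (p : ℝ) ≤ C3 * k := hp3.trans (mul_le_mul_of_nonneg_right hu hk0.le)
    rw [hN]
    exact_mod_cast this
  have hTB' := hN0 N (by omega) X Y ((Finset.filter_subset _ _).trans (hPWN _ _ hC3x))
    (hPWN _ _ hC3y)
  -- inner sums
  have hinner : ∀ x ∈ X, ∑ y ∈ Y,
        (if 1 ≤ a * (x : ℤ) + b * (y : ℤ) ∧ a * (x : ℤ) + b * (y : ℤ) ≤ (N : ℤ)
          then Ew w (a * (x : ℤ) + b * (y : ℤ)).toNat else 0) ≤ -((y1 - y0) / 16 * k / log k) := by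
    intro x hx
    rw [hX, Finset.mem_filter] at hx
    obtain ⟨hxPW, hxbad⟩ := hx
    obtain ⟨hxp, hxw⟩ := mem_PW' hxPW
    have hv : ∀ y ∈ Y, 1 ≤ a * (x : ℤ) + b * (y : ℤ) ∧ a * (x : ℤ) + b * (y : ℤ) ≤ (N : ℤ) := by
      intro y hy
      obtain ⟨hyp, hyw⟩ := mem_PW' hy
      refine ⟨pos_of_window hpos (by omega) hxw hyw, ?_⟩
      have h1 : (a : ℝ) * x + b * y ≤ N := by
        have h2 : (a : ℝ) * x ≤ |(a : ℝ)| * (x1 * k) :=
          mul_le_mul (le_abs_self _) hxw.2 (Nat.cast_nonneg _) (abs_nonneg _)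
        have h3 : (b : ℝ) * y ≤ |(b : ℝ)| * (y1 * k) :=
          mul_le_mul (le_abs_self _) hyw.2 (Nat.cast_nonneg _) (abs_nonneg _)
        have h4 : (|(a : ℝ)| * x1 + |(b : ℝ)| * y1) * k ≤ C3 * k :=
          mul_le_mul_of_nonneg_right hC3 hk0.le
        rw [hN]; push_cast
        nlinarith
      exact_mod_cast h1
    have h1 : ∑ y ∈ Y, (if 1 ≤ a * (x : ℤ) + b * (y : ℤ) ∧ a * (x : ℤ) + b * (y : ℤ) ≤ (N : ℤ)
          then Ew w (a * (x : ℤ) + b * (y : ℤ)).toNat else 0)
        = ∑ y ∈ Y, ArithmeticFunction.vonMangoldt (a * (x : ℤ) + b * (y : ℤ)).toNat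
          - ((primorial w : ℝ) / (Nat.totient (primorial w))) *
            ((Y.filter (fun y : ℕ => Nat.Coprime (a * (x : ℤ) + b * (y : ℤ)).toNat
              (primorial w))).card : ℝ) := by
      have h2 : ((primorial w : ℝ) / (Nat.totient (primorial w))) *
            ((Y.filter (fun y : ℕ => Nat.Coprime (a * (x : ℤ) + b * (y : ℤ)).toNat
              (primorial w))).card : ℝ)
          = ∑ y ∈ Y, (if Nat.Coprime (a * (x : ℤ) + b * (y : ℤ)).toNat (primorial w)
            then ((primorial w : ℝ) / (Nat.totient (primorial w))) else 0) := by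
        rw [← Finset.sum_filter, Finset.sum_const, nsmul_eq_mul, mul_comm]
      rw [h2, ← Finset.sum_sub_distrib]
      apply Finset.sum_congr rfl
      intro y hy
      rw [if_pos (hv y hy)]
      rfl
    rw [h1]
    have hmain : (y1 - y0) / 4 * k / log k ≤ ((primorial w : ℝ) / (Nat.totient (primorial w))) *
            ((Y.filter (fun y : ℕ => Nat.Coprime (a * (x : ℤ) + b * (y : ℤ)).toNat
              (primorial w))).card : ℝ) := by
      have h2 := hK1 k (by omega) x hxp hxw.1 hxw.2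
      have h3 : (Finset.range (⌊y1 * k⌋₊ + 1)).filter (fun p : ℕ => p.Prime ∧ y0 * k < p ∧
          (p : ℝ) ≤ y1 * k ∧ Nat.Coprime (a * (x : ℤ) + b * (p : ℤ)).toNat (primorial w))
          = Y.filter (fun y : ℕ => Nat.Coprime (a * (x : ℤ) + b * (y : ℤ)).toNat
              (primorial w)) := by
        rw [hY]
        unfold PW
        rw [Finset.filter_filter]
        apply Finset.filter_congr
        intro p _
        simp only [and_assoc]
      rw [h3] at h2
      exact h2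
    have hΛ1 : ∑ y ∈ Y.filter (fun y : ℕ => PInt (a * (x : ℤ) + b * (y : ℤ))),
        ArithmeticFunction.vonMangoldt (a * (x : ℤ) + b * (y : ℤ)).toNat
        ≤ (y1 - y0) / 8 * k / log k := by
      have h2 : ∑ y ∈ Y.filter (fun y : ℕ => PInt (a * (x : ℤ) + b * (y : ℤ))),
          ArithmeticFunction.vonMangoldt (a * (x : ℤ) + b * (y : ℤ)).toNat
          ≤ ((nb a b y0 y1 k x).card : ℝ) * (2 * log k) := by
        rw [← nsmul_eq_mul]
        apply Finset.sum_le_card_nsmul
        intro y hy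
        obtain ⟨hyY, -⟩ := Finset.mem_filter.1 hy
        refine ArithmeticFunction.vonMangoldt_le_log.trans (le_trans ?_ hlogN2)
        obtain ⟨hv1, hv2⟩ := hv y hyY
        apply log_le_log
        · have : 0 < (a * (x : ℤ) + b * (y : ℤ)).toNat := by omega
          exact_mod_cast this
        · have : (a * (x : ℤ) + b * (y : ℤ)).toNat ≤ N := by omega
          exact_mod_cast this
      refine h2.trans ?_
      calc ((nb a b y0 y1 k x).card : ℝ) * (2 * log k)
          ≤ ((y1 - y0) / 16 * k / (log k) ^ 2) * (2 * log k) :=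
            mul_le_mul_of_nonneg_right hxbad.le (by positivity)
        _ = (y1 - y0) / 8 * k / log k := by
            have : log (k : ℝ) ≠ 0 := hL.ne'
            field_simp
            ring
    have hΛ2 : ∑ y ∈ Y.filter (fun y : ℕ => ¬ PInt (a * (x : ℤ) + b * (y : ℤ))),
        ArithmeticFunction.vonMangoldt (a * (x : ℤ) + b * (y : ℤ)).toNat
        ≤ (y1 - y0) / 16 * k / log k := by
      have h2 : ∑ y ∈ Y.filter (fun y : ℕ => ¬ PInt (a * (x : ℤ) + b * (y : ℤ))),
          ArithmeticFunction.vonMangoldt (a * (x : ℤ) + b * (y : ℤ)).toNat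
          = ∑ n ∈ (Y.filter (fun y : ℕ => ¬ PInt (a * (x : ℤ) + b * (y : ℤ)))).image
            (fun y : ℕ => (a * (x : ℤ) + b * (y : ℤ)).toNat), ArithmeticFunction.vonMangoldt n := by
        rw [Finset.sum_image]
        intro y hy y' hy' h
        rw [Finset.mem_coe, Finset.mem_filter] at hy hy'
        have h3 := hv y hy.1
        have h4 := hv y' hy'.1
        simp only at h
        have h5 : b * ((y : ℤ) - y') = 0 := by
          have : a * (x : ℤ) + b * (y : ℤ) = a * (x : ℤ) + b * (y' : ℤ) := by omega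
          linear_combination this
        rcases mul_eq_zero.1 h5 with h6 | h6
        · exact absurd h6 hb
        · omega
      rw [h2]
      calc _ ≤ ∑ n ∈ (Finset.Ioc 0 ⌊(N : ℝ)⌋₊).filter (fun n => ¬ n.Prime),
            ArithmeticFunction.vonMangoldt n := by
            apply Finset.sum_le_sum_of_subset_of_nonneg
            · intro n hn
              obtain ⟨y, hy, rfl⟩ := Finset.mem_image.1 hn
              obtain ⟨hyY, hyn⟩ := Finset.mem_filter.1 hy
              obtain ⟨hv1, hv2⟩ := hv y hyY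
              rw [Nat.floor_natCast, Finset.mem_filter, Finset.mem_Ioc]
              refine ⟨⟨by omega, by omega⟩, fun hpr => hyn ⟨_, hpr, ?_⟩⟩
              rw [Int.toNat_of_nonneg (by omega)]
            · intro n _ _
              exact ArithmeticFunction.vonMangoldt_nonneg
        _ = Chebyshev.psi N - Chebyshev.theta N := nonprime_sum _
        _ ≤ C * √N := hC _
        _ ≤ max C 0 * √N := mul_le_mul_of_nonneg_right (le_max_left _ _) (sqrt_nonneg _)
        _ = max C 0 * √C3 * √k := by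
            rw [hN]; push_cast
            rw [sqrt_mul hC30.le, mul_assoc]
        _ ≤ _ := hK2 k (by omega)
    have hsplit := Finset.sum_filter_add_sum_filter_not Y
      (fun y : ℕ => PInt (a * (x : ℤ) + b * (y : ℤ)))
      (fun y : ℕ => ArithmeticFunction.vonMangoldt (a * (x : ℤ) + b * (y : ℤ)).toNat)
    rw [← hsplit]
    have e1 : (y1 - y0) / 4 * k / log k = 4 * ((y1 - y0) / 16 * k / log k) := by ring
    have e2 : (y1 - y0) / 8 * k / log k = 2 * ((y1 - y0) / 16 * k / log k) := by ring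
    rw [e1] at hmain
    rw [e2] at hΛ1
    linarith
  have hsum : ∑ x ∈ X, ∑ y ∈ Y,
        (if 1 ≤ a * (x : ℤ) + b * (y : ℤ) ∧ a * (x : ℤ) + b * (y : ℤ) ≤ (N : ℤ)
          then Ew w (a * (x : ℤ) + b * (y : ℤ)).toNat else 0)
      ≤ X.card * (-((y1 - y0) / 16 * k / log k)) := by
    rw [← nsmul_eq_mul]
    exact Finset.sum_le_card_nsmul _ _ _ hinner
  have h1 := (abs_le.1 hTB').1
  have h2 : (X.card : ℝ) * ((y1 - y0) / 16 * k / log k)
      ≤ η * (y1 - y0) / (16 * (C3 : ℝ) ^ 2) * ((N : ℝ) / log N) ^ 2 := by linarith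
  have h3 : ((N : ℝ) / log N) ^ 2 ≤ ((C3 : ℝ) * k / log k) ^ 2 := by
    apply pow_le_pow_left₀ (by positivity)
    rw [hN]; push_cast
    apply div_le_div_of_nonneg_left (by positivity) hL
    rw [hN] at hlogN1
    push_cast at hlogN1
    exact hlogN1
  have h4 : (X.card : ℝ) * ((y1 - y0) / 16 * k / log k)
      ≤ (η * k / log k) * ((y1 - y0) / 16 * k / log k) := by
    calc _ ≤ _ := h2
      _ ≤ η * (y1 - y0) / (16 * (C3 : ℝ) ^ 2) * ((C3 : ℝ) * k / log k) ^ 2 :=
        mul_le_mul_of_nonneg_left h3 hε.le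
      _ = _ := by field_simp
  exact le_of_mul_le_mul_right h4 (by positivity)

end Pool.Agent.Helper91_SP
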