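import Pool.Agent.Helper91_SP.Defs
import Pool.Agent.Common_Sieve.Primes

/-!
# `Up` from the sieve of helper71
-/

set_option autoImplicit false

namespace Pool.Agent.Helper91_SP

theorem up_holds : Up := by
  classical
  intro A D hA hD
  obtain ⟨C, hC, K, hK⟩ := Pool.Agent.Common_Sieve.up A D hA hD
  refine ⟨C, hC, K, fun k hk z hz hzk => ?_⟩
  apply hK k hk z hz hzk
  intro n hn
  rw [Finset.mem_filter, Finset.mem_Icc] at hn
  obtain ⟨⟨h1, h2⟩, h3, q, hq, hqe⟩ := hn
  exact ⟨h1, h2, h3, q, hq, hqe⟩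

end Pool.Agent.Helper91_SP
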