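import Pool.Agent.Helper91_SP.Main
import Pool.Agent.Helper91_SP.Deg
import Pool.Agent.Helper91_SP.UpProof

/-!
# The statement S17048 from the bilinear estimate `TB`
-/

set_option autoImplicit false

namespace Pool.Agent.Helper91_SP

theorem final (hTB : ∀ a b : ℤ, a ≠ 0 → b ≠ 0 → Pool.Agent.Helper71_SP.TB a b) :
    ¬ (∀ ε : ℝ, 0 < ε → ∃ K : ℕ, ∀ k : ℕ, K ≤ k → ∀ n : ℕ,
      ∃ i ∈ Finset.Icc 1 k,
        ((∏ p ∈ (Finset.range k).filter Nat.Prime, p ^ ((n + i).factorization p) : ℕ) : ℝ)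
          ≤ ε * (k : ℝ)) :=
  main (degMinus_of hTB) up_holds

end Pool.Agent.Helper91_SP
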