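import Pool.Agent.Helper91_SP.Crt

/-!
# Abstract gadget lemma by counting
-/

set_option autoImplicit false

namespace Pool.Agent.Helper91_SP

theorem finish {Ix Pat : Type} [Fintype Ix] [DecidableEq Ix] [Fintype Pat] [DecidableEq Pat]
    {m k : ℕ} (f : Ix → ℕ) (hf : Function.Injective f)
    (hpr : ∀ i, (f i).Prime) (hlo : ∀ i, k < 5 * f i) (hhi : ∀ i, f i < k)
    (N : Ix → ℕ) (hmul : ∀ i c, m < c * f i → c * f i ≤ m + k → 1 ≤ c ∧ c ≤ N i)
    (mv : Pat → Ix) (hmv : Function.Injective mv)
    (tk : Pat → Bool → Ix × ℕ) (htk : Function.Injective (fun q : Pat × Bool => tk q.1 q.2))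
    (hval : ∀ q b, 1 ≤ (tk q b).2 ∧ (tk q b).2 ≤ N (tk q b).1)
    (hrel : ∀ q, (tk q true).2 * f (tk q true).1 ≡
      (tk q false).2 * f (tk q false).1 [MOD f (mv q)])
    (hcount : ∑ i, N i + 1 ≤ Fintype.card Ix + Fintype.card Pat) (z : ℕ) :
    ∃ r, Good m k (Finset.univ.image f) r ∧ Cov (Finset.univ.image f) r z := by
  classical
  -- all tokens
  let T0 : Finset (Σ _ : Ix, ℕ) := Finset.univ.sigma fun i => Finset.Icc 1 (N i)
  let T : Finset (Ix × ℕ) := T0.image fun s => (s.1, s.2)
  have hTmem : ∀ i c, (i, c) ∈ T ↔ 1 ≤ c ∧ c ≤ N i := by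
    intro i c
    simp only [T, T0, Finset.mem_image, Finset.mem_sigma, Finset.mem_univ, true_and,
      Finset.mem_Icc, Prod.mk.injEq]
    constructor
    · rintro ⟨⟨i', c'⟩, h, rfl, rfl⟩
      exact h
    · intro h
      exact ⟨⟨i, c⟩, h, rfl, rfl⟩
  have hTcard : T.card ≤ ∑ i, N i := by
    refine Finset.card_image_le.trans ?_
    simp [T0, Finset.card_sigma]
  let P : Finset (Ix × ℕ) := (Finset.univ : Finset (Pat × Bool)).image (fun q => tk q.1 q.2)
  have hPcard : P.card = 2 * Fintype.card Pat := by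
    rw [Finset.card_image_of_injective _ htk, Finset.card_univ, Fintype.card_prod,
      Fintype.card_bool, mul_comm]
  have hPT : P ⊆ T := by
    intro s hs
    obtain ⟨q, -, rfl⟩ := Finset.mem_image.1 hs
    have := hval q.1 q.2
    exact (hTmem _ _).2 this
  let W := T \ P
  have hWcard : W.card + 2 * Fintype.card Pat ≤ ∑ i, N i := by
    have := Finset.card_sdiff_add_card_eq_card hPT
    rw [hPcard] at this
    show (T \ P).card + 2 * Fintype.card Pat ≤ ∑ i, N i
    omega
  let Fr : Finset Ix := Finset.univ \ Finset.univ.image mv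
  have hFr : Fr.card + Fintype.card Pat = Fintype.card Ix := by
    have := Finset.card_sdiff_add_card_eq_card (Finset.subset_univ (Finset.univ.image mv))
    rw [Finset.card_image_of_injective _ hmv, Finset.card_univ, Finset.card_univ] at this
    exact this
  have hcard : Fintype.card (Option {w // w ∈ W}) ≤ Fintype.card {i // i ∈ Fr} := by
    rw [Fintype.card_option, Fintype.card_coe, Fintype.card_coe]
    omega
  obtain ⟨g⟩ := Function.Embedding.nonempty_of_card_le hcard
  let val : Ix × ℕ → ℕ := fun s => s.2 * f s.1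
  let vW : Option {w // w ∈ W} → ℕ := fun o => match o with
    | none => z
    | some w => val w.1
  let ρ : Ix → ℕ := Function.extend mv (fun q => val (tk q true))
    (Function.extend (fun o => (g o).1) vW (fun _ => 0))
  have hρ1 : ∀ q, ρ (mv q) = val (tk q true) := fun q => hmv.extend_apply _ _ q
  have hg : Function.Injective (fun o => (g o).1) := fun a b h => g.injective (Subtype.ext h)
  have hρ2 : ∀ o, ρ (g o).1 = vW o := by
    intro o
    have hno : ¬ ∃ q, mv q = (g o).1 := by
      rintro ⟨q, hq⟩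
      have := (g o).2
      rw [Finset.mem_sdiff] at this
      exact this.2 (Finset.mem_image.2 ⟨q, Finset.mem_univ _, hq⟩)
    show Function.extend mv _ _ (g o).1 = _
    rw [Function.extend_apply' _ _ _ hno]
    exact hg.extend_apply vW (fun _ => 0) o
  have hne : Nonempty Ix := ⟨(g none).1⟩
  have hinv : ∀ i, ρ (Function.invFun f (f i)) = ρ i := fun i => by
    rw [Function.leftInverse_invFun hf i]
  refine ⟨fun p => ρ (Function.invFun f p), ⟨?_, ?_, ?_, ?_⟩, ?_⟩
  · intro p hp
    obtain ⟨i, -, rfl⟩ := Finset.mem_image.1 hp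
    exact hpr i
  · intro p hp
    obtain ⟨i, -, rfl⟩ := Finset.mem_image.1 hp
    exact hlo i
  · intro p hp
    obtain ⟨i, -, rfl⟩ := Finset.mem_image.1 hp
    exact hhi i
  · intro x hx hx' p hp hpx
    obtain ⟨i, -, rfl⟩ := Finset.mem_image.1 hp
    obtain ⟨c, rfl⟩ := hpx
    rw [mul_comm] at hx hx' ⊢
    have hc := hmul i c hx hx'
    by_cases hP : (i, c) ∈ P
    · obtain ⟨⟨q, b⟩, -, hq⟩ := Finset.mem_image.1 hP
      simp only at hq
      refine ⟨f (mv q), Finset.mem_image.2 ⟨_, Finset.mem_univ _, rfl⟩, ?_⟩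
      show _ ≡ ρ (Function.invFun f (f (mv q))) [MOD _]
      rw [hinv, hρ1]
      cases b with
      | true =>
        rw [hq]
      | false =>
        have := (hrel q).symm
        rw [hq] at this
        exact this
    · have hW : (i, c) ∈ W := Finset.mem_sdiff.2 ⟨(hTmem _ _).2 hc, hP⟩
      refine ⟨f (g (some ⟨(i, c), hW⟩)).1, Finset.mem_image.2 ⟨_, Finset.mem_univ _, rfl⟩, ?_⟩
      show _ ≡ ρ (Function.invFun f (f _)) [MOD _]
      rw [hinv, hρ2]
  · refine ⟨f (g none).1, Finset.mem_image.2 ⟨_, Finset.mem_univ _, rfl⟩, ?_⟩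
    show _ ≡ ρ (Function.invFun f (f _)) [MOD _]
    rw [hinv, hρ2]

end Pool.Agent.Helper91_SP
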