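import Mathlib

/-!
# Counting tuples along a tree, pigeonhole, and avoiding coincidences
-/

set_option autoImplicit false

namespace Pool.Agent.Helper91_SP

open Classical in
theorem tree (par : ℕ → ℕ) (hpar : ∀ j, 1 ≤ j → par j < j) (G : ℕ → Finset ℕ)
    (f : ℕ → ℕ → Finset ℕ) (M : ℝ) (hM : 0 ≤ M) (n : ℕ)
    (hf : ∀ j, 1 ≤ j → j ≤ n → ∀ v ∈ G (par j), f j v ⊆ G j ∧ M ≤ ((f j v).card : ℝ)) :
    ∃ S : Finset (ℕ → ℕ), ((G 0).card : ℝ) * M ^ n ≤ S.card ∧
      ∀ g ∈ S, (∀ j, n < j → g j = 0) ∧ (∀ j, j ≤ n → g j ∈ G j) ∧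
        ∀ j, 1 ≤ j → j ≤ n → g j ∈ f j (g (par j)) := by
  induction n with
  | zero =>
    refine ⟨(G 0).image (fun v => fun j => if j = 0 then v else 0), ?_, ?_⟩
    · rw [Finset.card_image_of_injective]
      · simp
      · intro v w h
        have := congrFun h 0
        simpa using this
    · intro g hg
      obtain ⟨v, hv, rfl⟩ := Finset.mem_image.1 hg
      refine ⟨?_, ?_, ?_⟩
      · intro j hj
        simp [hj.ne']
      · intro j hj
        have : j = 0 := by omega
        subst this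
        simpa using hv
      · intro j h1 h2
        omega
  | succ n ih =>
    obtain ⟨S, hS, hprop⟩ := ih (fun j h1 h2 => hf j h1 (by omega))
    have hp : par (n + 1) < n + 1 := hpar _ (by omega)
    refine ⟨(S.sigma (fun g => f (n + 1) (g (par (n + 1))))).image
      (fun s => Function.update s.1 (n + 1) s.2), ?_, ?_⟩
    · rw [Finset.card_image_of_injOn]
      · rw [Finset.card_sigma]
        push_cast
        calc ((G 0).card : ℝ) * M ^ (n + 1) = ((G 0).card : ℝ) * M ^ n * M := by ring
          _ ≤ S.card * M := mul_le_mul_of_nonneg_right hS hM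
          _ = ∑ g ∈ S, M := by simp
          _ ≤ _ := by
            apply Finset.sum_le_sum
            intro g hg
            exact (hf (n + 1) (by omega) le_rfl _ ((hprop g hg).2.1 _ (by omega))).2
      · rintro ⟨g, v⟩ hs ⟨g', v'⟩ hs' h
        simp only [Finset.coe_sigma, Set.mem_sigma_iff, Finset.mem_coe] at hs hs'
        simp only at h
        have h1 : v = v' := by
          have := congrFun h (n + 1)
          simpa using this
        have h2 : g = g' := by
          funext j
          by_cases hj : j = n + 1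
          · subst hj
            rw [(hprop g hs.1).1 _ (by omega), (hprop g' hs'.1).1 _ (by omega)]
          · have := congrFun h j
            simpa [hj] using this
        subst h1 h2
        rfl
    · intro g' hg'
      obtain ⟨⟨g, v⟩, hgv, rfl⟩ := Finset.mem_image.1 hg'
      rw [Finset.mem_sigma] at hgv
      obtain ⟨hg, hv⟩ := hgv
      simp only at hg hv ⊢
      obtain ⟨h1, h2, h3⟩ := hprop g hg
      have hGp : g (par (n + 1)) ∈ G (par (n + 1)) := h2 _ (by omega)
      have hfn := hf (n + 1) (by omega) le_rfl _ hGp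
      refine ⟨?_, ?_, ?_⟩
      · intro j hj
        rw [Function.update_of_ne (by omega)]
        exact h1 j (by omega)
      · intro j hj
        by_cases hjn : j = n + 1
        · subst hjn
          rw [Function.update_self]
          exact hfn.1 hv
        · rw [Function.update_of_ne hjn]
          exact h2 j (by omega)
      · intro j hj1 hj2
        by_cases hjn : j = n + 1
        · subst hjn
          rw [Function.update_self, Function.update_of_ne (by omega)]
          exact hv
        · rw [Function.update_of_ne hjn, Function.update_of_ne (by have := hpar j hj1; omega)]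
          exact h3 j hj1 (by omega)

open Classical in
theorem lin (k : ℕ) (F : Finset (ℕ → ℕ))
    (hagree : ∀ g ∈ F, ∀ g' ∈ F, ∀ j, 6 ≤ j → g j = g' j)
    (hk : ∀ g ∈ F, ∀ j, j < 6 → g j ≤ k)
    (c : Fin 9 → ℤ) (i : Fin 9) (hi : i.val < 6) (hci : c i ≠ 0) (d : ℤ) :
    (F.filter (fun g => ∑ j, c j * g j = d)).card ≤ (k + 1) ^ 5 := by
  have h1 : (Fintype.piFinset (fun _ : Fin 5 => Finset.range (k + 1))).card = (k + 1) ^ 5 := by
    rw [Fintype.card_piFinset]
    simp
  rw [← h1]
  apply Finset.card_le_card_of_injOn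
    (fun g => fun m : Fin 5 => g ((⟨i.val, hi⟩ : Fin 6).succAbove m).val)
  · intro g hg
    rw [Finset.mem_coe, Finset.mem_filter] at hg
    rw [Finset.mem_coe, Fintype.mem_piFinset]
    intro m
    rw [Finset.mem_range]
    have := hk g hg.1 ((⟨i.val, hi⟩ : Fin 6).succAbove m).val (Fin.is_lt _)
    simp only
    omega
  · intro g hg g' hg' h
    rw [Finset.mem_coe, Finset.mem_filter] at hg hg'
    have h2 : ∀ j : ℕ, j ≠ i.val → g j = g' j := by
      intro j hj
      by_cases hj6 : j < 6
      · obtain ⟨m, hm⟩ := Fin.exists_succAbove_eq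
          (show (⟨j, hj6⟩ : Fin 6) ≠ ⟨i.val, hi⟩ from fun h => hj (congrArg Fin.val h))
        have := congrFun h m
        simp only [hm] at this
        exact this
      · exact hagree g hg.1 g' hg'.1 j (by omega)
    have h3 : ∑ j : Fin 9, c j * ((g j : ℤ) - g' j) = 0 := by
      simp only [mul_sub, Finset.sum_sub_distrib]
      rw [hg.2, hg'.2, sub_self]
    rw [Finset.sum_eq_single i] at h3
    · rcases mul_eq_zero.1 h3 with h4 | h4
      · exact absurd h4 hci
      · funext j
        by_cases hj : j = i.val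
        · subst hj
          exact_mod_cast sub_eq_zero.1 h4
        · exact h2 j hj
    · intro j _ hj
      rw [h2 j.val (fun h => hj (Fin.ext h)), sub_self, mul_zero]
    · simp

/-- coefficients of the 14 values attached to a tuple
`(u0, y0, y1, y3, u1, y2, t0, t1, t2)` -/
def Mc : Fin 14 → Fin 9 → ℤ := ![
  ![1, 0, 0, 0, 0, 0, 0, 0, 0],
  ![0, 1, 0, 0, 0, 0, 0, 0, 0],
  ![0, 0, 1, 0, 0, 0, 0, 0, 0],
  ![0, 0, 0, 1, 0, 0, 0, 0, 0],
  ![0, 0, 0, 0, 1, 0, 0, 0, 0],
  ![0, 0, 0, 0, 0, 1, 0, 0, 0],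
  ![2, 1, 0, 0, 0, 0, 0, 0, 0],
  ![2, 0, -1, 0, 0, 0, 0, 0, 0],
  ![-1, 0, 0, 4, 0, 0, 0, 0, 0],
  ![0, 0, 0, -1, 2, 0, 0, 0, 0],
  ![0, 0, 0, 0, 2, 1, 0, 0, 0],
  ![0, 4, 0, 0, 0, 0, -1, 0, 0],
  ![0, 0, 4, 0, 0, 0, 0, -1, 0],
  ![0, 0, 0, 0, 0, 4, 0, 0, -1]]

lemma Mc_ne : ∀ a b : Fin 14, a ≠ b → ∃ i : Fin 9, i.val < 6 ∧ Mc a i ≠ Mc b i := by
  decide +kernel

lemma Mc_ne0 : ∀ a : Fin 14, ∃ i : Fin 9, i.val < 6 ∧ Mc a i ≠ 0 := by
  decide +kernel

/-- the values attached to a tuple -/
def val (a : Fin 14) (g : ℕ → ℕ) : ℤ := ∑ j, Mc a j * g j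

open Classical in
theorem pick (k : ℕ) (F : Finset (ℕ → ℕ))
    (hagree : ∀ g ∈ F, ∀ g' ∈ F, ∀ j, 6 ≤ j → g j = g' j)
    (hk : ∀ g ∈ F, ∀ j, j < 6 → g j ≤ k) (V : Finset ℤ) (hV : V.card ≤ 17)
    (hcard : 434 * (k + 1) ^ 5 < F.card) :
    ∃ g ∈ F, Function.Injective (fun a => val a g) ∧ ∀ a, val a g ∉ V := by
  by_contra hcon
  push Not at hcon
  have hsub : F ⊆ ((Finset.univ : Finset (Fin 14 × Fin 14)).filter (fun ab => ab.1 ≠ ab.2)).biUnion
      (fun ab => F.filter (fun g => ∑ j, (Mc ab.1 j - Mc ab.2 j) * g j = 0)) ∪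
      ((Finset.univ : Finset (Fin 14)) ×ˢ V).biUnion
      (fun av => F.filter (fun g => ∑ j, Mc av.1 j * g j = av.2)) := by
    intro g hg
    rw [Finset.mem_union]
    by_cases hinj : Function.Injective (fun a => val a g)
    · right
      obtain ⟨a, ha⟩ := hcon g hg hinj
      rw [Finset.mem_biUnion]
      refine ⟨(a, val a g), ?_, ?_⟩
      · rw [Finset.mem_product]; exact ⟨Finset.mem_univ _, ha⟩
      · rw [Finset.mem_filter]; exact ⟨hg, rfl⟩
    · left
      simp only [Function.Injective] at hinj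
      push Not at hinj
      obtain ⟨a, b, hab, hne⟩ := hinj
      rw [Finset.mem_biUnion]
      refine ⟨(a, b), ?_, ?_⟩
      · rw [Finset.mem_filter]; exact ⟨Finset.mem_univ _, hne⟩
      · rw [Finset.mem_filter]
        refine ⟨hg, ?_⟩
        simp only [sub_mul, Finset.sum_sub_distrib]
        exact sub_eq_zero.2 hab
  have h1 : (((Finset.univ : Finset (Fin 14 × Fin 14)).filter (fun ab => ab.1 ≠ ab.2)).biUnion
      (fun ab => F.filter (fun g => ∑ j, (Mc ab.1 j - Mc ab.2 j) * g j = 0))).card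
      ≤ 196 * (k + 1) ^ 5 := by
    refine (Finset.card_biUnion_le_card_mul _ _ ((k + 1) ^ 5) ?_).trans ?_
    · rintro ⟨a, b⟩ hab
      have hne := (Finset.mem_filter.1 hab).2
      obtain ⟨i, hi, hci⟩ := Mc_ne a b hne
      exact lin k F hagree hk (fun j => Mc a j - Mc b j) i hi (sub_ne_zero.2 hci) 0
    · apply Nat.mul_le_mul_right
      refine (Finset.card_filter_le _ _).trans ?_
      simp
  have h2 : (((Finset.univ : Finset (Fin 14)) ×ˢ V).biUnion
      (fun av => F.filter (fun g => ∑ j, Mc av.1 j * g j = av.2))).card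
      ≤ 238 * (k + 1) ^ 5 := by
    refine (Finset.card_biUnion_le_card_mul _ _ ((k + 1) ^ 5) ?_).trans ?_
    · rintro ⟨a, v⟩ hav
      obtain ⟨i, hi, hci⟩ := Mc_ne0 a
      exact lin k F hagree hk (fun j => Mc a j) i hi hci v
    · apply Nat.mul_le_mul_right
      rw [Finset.card_product]
      simp only [Finset.card_univ, Fintype.card_fin]
      omega
  have h3 := (Finset.card_le_card hsub).trans (Finset.card_union_le _ _)
  have h4 : F.card ≤ 434 * (k + 1) ^ 5 := by
    calc _ ≤ _ := h3
      _ ≤ 196 * (k + 1) ^ 5 + 238 * (k + 1) ^ 5 := Nat.add_le_add h1 h2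
      _ = _ := by ring
  omega

open Classical in
/-- pigeonhole over the last three coordinates, then two independent picks -/
theorem two_picks (k : ℕ) (S : Finset (ℕ → ℕ)) (h9 : ∀ g ∈ S, ∀ j, 8 < j → g j = 0)
    (hk : ∀ g ∈ S, ∀ j, g j ≤ k) (hcard : (k + 1) ^ 3 * (434 * (k + 1) ^ 5) < S.card) :
    ∃ g ∈ S, ∃ g' ∈ S, (∀ j, 6 ≤ j → g j = g' j) ∧
      Function.Injective (fun a => val a g) ∧ Function.Injective (fun a => val a g') ∧
      (∀ a b, val a g ≠ val b g') ∧
      (∀ a, ∀ j, 6 ≤ j → j ≤ 8 → val a g ≠ g j) ∧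
      (∀ a, ∀ j, 6 ≤ j → j ≤ 8 → val a g' ≠ g j) := by
  have hT : ∀ g ∈ S, (fun g : ℕ → ℕ => (g 6, g 7, g 8)) g ∈
      Finset.range (k + 1) ×ˢ (Finset.range (k + 1) ×ˢ Finset.range (k + 1)) := by
    intro g hg
    simp only [Finset.mem_product, Finset.mem_range]
    have h6 := hk g hg 6
    have h7 := hk g hg 7
    have h8 := hk g hg 8
    omega
  have hTc : (Finset.range (k + 1) ×ˢ (Finset.range (k + 1) ×ˢ Finset.range (k + 1))).card
      = (k + 1) ^ 3 := by
    simp only [Finset.card_product, Finset.card_range]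
    ring
  obtain ⟨τ, -, hτ⟩ := Finset.exists_lt_card_fiber_of_mul_lt_card_of_maps_to
    (n := 434 * (k + 1) ^ 5) hT (by rw [hTc]; exact hcard)
  set F := S.filter (fun g : ℕ → ℕ => (g 6, g 7, g 8) = τ) with hF
  have hFS : ∀ g ∈ F, g ∈ S := fun g hg => (Finset.mem_filter.1 hg).1
  have hagree : ∀ g ∈ F, ∀ g' ∈ F, ∀ j, 6 ≤ j → g j = g' j := by
    intro g hg g' hg' j hj
    have h1 := (Finset.mem_filter.1 hg).2
    have h2 := (Finset.mem_filter.1 hg').2
    rw [← h2, Prod.mk.injEq, Prod.mk.injEq] at h1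
    by_cases hj8 : 8 < j
    · rw [h9 g (hFS g hg) j hj8, h9 g' (hFS g' hg') j hj8]
    · have : j = 6 ∨ j = 7 ∨ j = 8 := by omega
      rcases this with rfl | rfl | rfl
      · exact h1.1
      · exact h1.2.1
      · exact h1.2.2
  have hkF : ∀ g ∈ F, ∀ j, j < 6 → g j ≤ k := fun g hg j _ => hk g (hFS g hg) j
  let V1 : Finset ℤ := {(τ.1 : ℤ), (τ.2.1 : ℤ), (τ.2.2 : ℤ)}
  have hV1 : V1.card ≤ 3 := Finset.card_le_three
  have hτmem : ∀ g ∈ F, ∀ j, 6 ≤ j → j ≤ 8 → (g j : ℤ) ∈ V1 := by
    intro g hg j h1 h2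
    have h3 := (Finset.mem_filter.1 hg).2
    have : j = 6 ∨ j = 7 ∨ j = 8 := by omega
    rcases this with rfl | rfl | rfl
    · simp [V1, ← h3]
    · simp [V1, ← h3]
    · simp [V1, ← h3]
  obtain ⟨g, hg, hinj, hgV⟩ := pick k F hagree hkF V1 (by omega) hτ
  let V2 : Finset ℤ := V1 ∪ Finset.univ.image (fun a => val a g)
  have hV2 : V2.card ≤ 17 := by
    refine (Finset.card_union_le _ _).trans ?_
    have : (Finset.univ.image (fun a => val a g)).card ≤ 14 :=
      Finset.card_image_le.trans (by simp)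
    omega
  obtain ⟨g', hg', hinj', hgV'⟩ := pick k F hagree hkF V2 hV2 hτ
  refine ⟨g, hFS g hg, g', hFS g' hg', hagree g hg g' hg', hinj, hinj', ?_, ?_, ?_⟩
  · intro a b h
    apply hgV' b
    rw [← h]
    exact Finset.mem_union_right _ (Finset.mem_image.2 ⟨a, Finset.mem_univ _, rfl⟩)
  · intro a j h1 h2 h
    apply hgV a
    rw [h]
    exact hτmem g hg j h1 h2
  · intro a j h1 h2 h
    apply hgV' a
    rw [h]
    exact Finset.mem_union_left _ (hτmem g hg j h1 h2)

open Classical in
/-- greedy choice of pendants -/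
theorem pend {J : Type} [DecidableEq J] (V : Finset ℕ) (C : J → Finset ℕ) (s : J → ℕ)
    (hs : ∀ j, 0 < s j) (T : Finset J) (hC : ∀ j ∈ T, 2 * V.card + 4 * T.card < (C j).card) :
    ∃ w : J → ℕ, (∀ j ∈ T, w j ∈ C j) ∧ (∀ j ∈ T, w j ∉ V ∧ w j + s j ∉ V) ∧
      (∀ i ∈ T, ∀ j ∈ T, i ≠ j → w i ≠ w j ∧ w i + s i ≠ w j + s j) ∧
      (∀ i ∈ T, ∀ j ∈ T, w i ≠ w j + s j) := by
  have main : ∀ T' : Finset J, T' ⊆ T → ∃ w : J → ℕ, (∀ j ∈ T', w j ∈ C j) ∧
      (∀ j ∈ T', w j ∉ V ∧ w j + s j ∉ V) ∧
      (∀ i ∈ T', ∀ j ∈ T', i ≠ j → w i ≠ w j ∧ w i + s i ≠ w j + s j) ∧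
      (∀ i ∈ T', ∀ j ∈ T', w i ≠ w j + s j) := by
    intro T'
    induction T' using Finset.induction_on with
    | empty => intro _; exact ⟨fun _ => 0, by simp, by simp, by simp, by simp⟩
    | insert a T' ha ih =>
      intro hsub
      have haT : a ∈ T := hsub (Finset.mem_insert_self _ _)
      obtain ⟨w, h1, h2, h3, h4⟩ := ih (fun j hj => hsub (Finset.mem_insert_of_mem hj))
      let V' : Finset ℕ := V ∪ (T'.image w ∪ T'.image (fun j => w j + s j))
      have hV' : V'.card ≤ V.card + 2 * T'.card := by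
        refine (Finset.card_union_le _ _).trans ?_
        have := Finset.card_union_le (T'.image w) (T'.image (fun j => w j + s j))
        have h5 : (T'.image w).card ≤ T'.card := Finset.card_image_le
        have h6 : (T'.image (fun j => w j + s j)).card ≤ T'.card := Finset.card_image_le
        omega
      have hT' : T'.card ≤ T.card :=
        Finset.card_le_card (fun j hj => hsub (Finset.mem_insert_of_mem hj))
      have hex : ∃ q ∈ C a, q ∉ V' ∧ q + s a ∉ V' := by
        by_contra hcon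
        push Not at hcon
        have hsubC : C a ⊆ V' ∪ (V'.image (fun v => v - s a)) := by
          intro q hq
          rw [Finset.mem_union]
          by_cases hqV : q ∈ V'
          · left; exact hqV
          · right
            exact Finset.mem_image.2 ⟨q + s a, hcon q hq hqV, by omega⟩
        have h5 := (Finset.card_le_card hsubC).trans (Finset.card_union_le _ _)
        have h6 : (V'.image (fun v => v - s a)).card ≤ V'.card := Finset.card_image_le
        have h7 := hC a haT
        omega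
      obtain ⟨q, hqC, hqV, hqs⟩ := hex
      have hmemV : ∀ v, v ∉ V' → v ∉ V ∧ ∀ j ∈ T', w j ≠ v ∧ w j + s j ≠ v := by
        intro v hv
        refine ⟨fun h => hv (Finset.mem_union_left _ h), fun j hj => ⟨fun h => ?_, fun h => ?_⟩⟩
        · exact hv (Finset.mem_union_right _ (Finset.mem_union_left _
            (Finset.mem_image.2 ⟨j, hj, h⟩)))
        · exact hv (Finset.mem_union_right _ (Finset.mem_union_right _
            (Finset.mem_image.2 ⟨j, hj, h⟩)))
      obtain ⟨hqV0, hq1⟩ := hmemV q hqV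
      obtain ⟨hqs0, hq2⟩ := hmemV _ hqs
      have hupd : ∀ j ∈ T', Function.update w a q j = w j := by
        intro j hj
        rw [Function.update_of_ne]
        rintro rfl
        exact ha hj
      have hsa := hs a
      refine ⟨Function.update w a q, ?_, ?_, ?_, ?_⟩
      · intro j hj
        rcases Finset.mem_insert.1 hj with rfl | hj
        · rw [Function.update_self]; exact hqC
        · rw [hupd j hj]; exact h1 j hj
      · intro j hj
        rcases Finset.mem_insert.1 hj with rfl | hj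
        · rw [Function.update_self]; exact ⟨hqV0, hqs0⟩
        · rw [hupd j hj]; exact h2 j hj
      · intro i hi j hj hij
        rcases Finset.mem_insert.1 hi with rfl | hi' <;> rcases Finset.mem_insert.1 hj with rfl | hj'
        · exact absurd rfl hij
        · rw [Function.update_self, hupd j hj']
          exact ⟨(hq1 j hj').1.symm, (hq2 j hj').2.symm⟩
        · rw [Function.update_self, hupd i hi']
          exact ⟨(hq1 i hi').1, (hq2 i hi').2⟩
        · rw [hupd i hi', hupd j hj']
          exact h3 i hi' j hj' hij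
      · intro i hi j hj
        rcases Finset.mem_insert.1 hi with rfl | hi' <;> rcases Finset.mem_insert.1 hj with rfl | hj'
        · rw [Function.update_self]; omega
        · rw [Function.update_self, hupd j hj']
          exact (hq1 j hj').2.symm
        · rw [Function.update_self, hupd i hi']
          exact (hq2 i hi').1
        · rw [hupd i hi', hupd j hj']
          exact h4 i hi' j hj'
  exact main T subset_rfl

end Pool.Agent.Helper91_SP
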