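import Pool.Agent.Helper91_SP.Cover
import Pool.Agent.Helper91_SP.Clean
import Pool.Agent.Helper91_SP.Tree
import Pool.Agent.Helper91_SP.Count

/-!
# Existence of the two half-gadgets
-/

set_option autoImplicit false

namespace Pool.Agent.Helper91_SP

open Real Filter Topology

/-- pendants -/
noncomputable def rP : Rel := ⟨2, 1, 2390 / 10000, 2410 / 10000, 5050 / 10000, 5150 / 10000⟩
/-- tips -/
noncomputable def rT0 : Rel := ⟨4, -1, 2390 / 10000, 2410 / 10000, 3990 / 10000, 3995 / 10000⟩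
/-- tips -/
noncomputable def rT1 : Rel := ⟨4, -1, 2390 / 10000, 2410 / 10000, 3995 / 10000, 4005 / 10000⟩
/-- tips -/
noncomputable def rT2 : Rel := ⟨4, -1, 2390 / 10000, 2410 / 10000, 4005 / 10000, 4010 / 10000⟩
/-- `e = 2 u + y` -/
noncomputable def rA : Rel := ⟨2, 1, 3740 / 10000, 3760 / 10000, 2390 / 10000, 2410 / 10000⟩
/-- `e = 2 u - y`, from `y` to `u` -/
noncomputable def rB : Rel := ⟨-1, 2, 2390 / 10000, 2410 / 10000, 3740 / 10000, 3760 / 10000⟩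
/-- `e = 2 u - y` -/
noncomputable def rC : Rel := ⟨2, -1, 3740 / 10000, 3760 / 10000, 2390 / 10000, 2410 / 10000⟩
/-- `e = 4 y - u` -/
noncomputable def rD : Rel := ⟨-1, 4, 3740 / 10000, 3760 / 10000, 2390 / 10000, 2410 / 10000⟩

/-- all relations -/
noncomputable def Rels : List Rel := [rP, rT0, rT1, rT2, rA, rB, rC, rD]

lemma Rels_ok : ∀ ρ ∈ Rels, ρ.Ok := by
  intro ρ hρ
  simp only [Rels, List.mem_cons, List.not_mem_nil, or_false] at hρ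
  rcases hρ with rfl | rfl | rfl | rfl | rfl | rfl | rfl | rfl
  · refine ⟨⟨0, 1, by norm_num [rP]⟩, ⟨1, by norm_num [rP]⟩, ?_, ?_, ?_, ?_, ?_, ?_, ?_, ?_, ?_, ?_⟩
      <;> norm_num [rP]
    intro x hx _ y hy _
    linarith
  · refine ⟨⟨0, -1, by norm_num [rT0]⟩, ⟨1, by norm_num [rT0]⟩, ?_, ?_, ?_, ?_, ?_, ?_, ?_, ?_, ?_, ?_⟩
      <;> norm_num [rT0]
    intro x hx _ y hy _
    linarith
  · refine ⟨⟨0, -1, by norm_num [rT1]⟩, ⟨1, by norm_num [rT1]⟩, ?_, ?_, ?_, ?_, ?_, ?_, ?_, ?_, ?_, ?_⟩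
      <;> norm_num [rT1]
    intro x hx _ y hy _
    linarith
  · refine ⟨⟨0, -1, by norm_num [rT2]⟩, ⟨1, by norm_num [rT2]⟩, ?_, ?_, ?_, ?_, ?_, ?_, ?_, ?_, ?_, ?_⟩
      <;> norm_num [rT2]
    intro x hx _ y hy _
    linarith
  · refine ⟨⟨0, 1, by norm_num [rA]⟩, ⟨1, by norm_num [rA]⟩, ?_, ?_, ?_, ?_, ?_, ?_, ?_, ?_, ?_, ?_⟩
      <;> norm_num [rA]
    intro x hx _ y hy _
    linarith
  · refine ⟨⟨-1, 0, by norm_num [rB]⟩, ⟨0, by norm_num [rB]⟩, ?_, ?_, ?_, ?_, ?_, ?_, ?_, ?_, ?_, ?_⟩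
      <;> norm_num [rB]
    intro x hx _ y hy _
    linarith
  · refine ⟨⟨0, -1, by norm_num [rC]⟩, ⟨0, by norm_num [rC]⟩, ?_, ?_, ?_, ?_, ?_, ?_, ?_, ?_, ?_, ?_⟩
      <;> norm_num [rC]
    intro x hx _ y hy _
    linarith
  · refine ⟨⟨-1, 0, by norm_num [rD]⟩, ⟨1, by norm_num [rD]⟩, ?_, ?_, ?_, ?_, ?_, ?_, ?_, ?_, ?_, ?_⟩
      <;> norm_num [rD]
    intro x hx _ y hy _
    linarith

lemma val_eq (h : ℕ → ℕ) : val 0 h = h 0 ∧ val 1 h = h 1 ∧ val 2 h = h 2 ∧ val 3 h = h 3 ∧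
    val 4 h = h 4 ∧ val 5 h = h 5 ∧ val 6 h = 2 * h 0 + 1 * h 1 ∧ val 7 h = 2 * h 0 + -1 * h 2 ∧
    val 8 h = -1 * h 0 + 4 * h 3 ∧ val 9 h = -1 * h 3 + 2 * h 4 ∧ val 10 h = 2 * h 4 + 1 * h 5 ∧
    val 11 h = 4 * h 1 + -1 * h 6 ∧ val 12 h = 4 * h 2 + -1 * h 7 ∧
    val 13 h = 4 * h 5 + -1 * h 8 := by
  refine ⟨?_, ?_, ?_, ?_, ?_, ?_, ?_, ?_, ?_, ?_, ?_, ?_, ?_, ?_⟩ <;>
    simp [val, Mc, Fin.sum_univ_succ]

open Classical in
lemma cnb_spec {ρ : Rel} {k : ℕ} {B : Finset ℕ} {x p : ℕ} (h : p ∈ cnb ρ k B x) :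
    p ∈ PW k ρ.y0 ρ.y1 ∧ p ∉ B ∧ ∃ q : ℕ, q.Prime ∧ q ∉ B ∧ ρ.a * x + ρ.b * p = q := by
  unfold cnb nb at h
  rw [Finset.mem_filter, Finset.mem_filter] at h
  obtain ⟨⟨h1, q, hq, hqe⟩, h2, h3⟩ := h
  refine ⟨h1, h2, q, hq, fun hqB => h3 q hqB hqe.symm, hqe⟩

lemma win {k A B p : ℕ} (h : p ∈ PW k ((A : ℝ) / 10000) ((B : ℝ) / 10000)) :
    A * k < 10000 * p ∧ 10000 * p ≤ B * k := by
  obtain ⟨-, h1, h2⟩ := mem_PW h
  constructor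
  · have : (A : ℝ) * k < 10000 * p := by linarith
    exact_mod_cast this
  · have : 10000 * (p : ℝ) ≤ B * k := by linarith
    exact_mod_cast this

lemma growth (c : ℝ) (hc : 0 < c) : ∃ K : ℕ, ∀ k : ℕ, K ≤ k →
    (126 : ℝ) < c * k / (log k) ^ 2 ∧
    (((k + 1) ^ 3 * (434 * (k + 1) ^ 5) : ℕ) : ℝ)
      < (5 / 10000 * k / log k) * (c * k / (log k) ^ 2) ^ 8 := by
  have h1 : ∀ᶠ x : ℝ in atTop, (log x) ^ 17 ≤ (c ^ 8 / (434 * 256 * 2001)) * x := by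
    have hpos : 0 < c ^ 8 / (434 * 256 * 2001) := by positivity
    have := (isLittleO_pow_log_id_atTop (n := 17)).bound hpos
    filter_upwards [this, eventually_ge_atTop 1] with x hx hx1
    rw [Real.norm_of_nonneg (pow_nonneg (log_nonneg hx1) _), id,
      Real.norm_of_nonneg (by linarith)] at hx
    exact hx
  have h2 : ∀ᶠ x : ℝ in atTop, (log x) ^ 2 ≤ (c / 127) * x := by
    have hpos : 0 < c / 127 := by positivity
    have := (isLittleO_pow_log_id_atTop (n := 2)).bound hpos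
    filter_upwards [this, eventually_ge_atTop 1] with x hx hx1
    rw [Real.norm_of_nonneg (pow_nonneg (log_nonneg hx1) _), id,
      Real.norm_of_nonneg (by linarith)] at hx
    exact hx
  obtain ⟨X, hX⟩ := eventually_atTop.1 (h1.and h2)
  refine ⟨⌈X⌉₊ + 3, fun k hk => ?_⟩
  have hk3' : (3 : ℝ) ≤ k := by
    have : 3 ≤ k := by omega
    exact_mod_cast this
  have hkX : X ≤ k := (Nat.le_ceil _).trans (by exact_mod_cast (by omega))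
  have hL : 0 < log k := log_pos (by linarith)
  have hk0 : (0 : ℝ) < k := by linarith
  obtain ⟨h3, h4⟩ := hX k hkX
  constructor
  · rw [lt_div_iff₀ (by positivity)]
    nlinarith [mul_pos hc hk0]
  · have h5 : (5 / 10000 * (k : ℝ) / log k) * (c * k / (log k) ^ 2) ^ 8
        = 5 / 10000 * c ^ 8 * k ^ 9 / (log k) ^ 17 := by
      field_simp
    rw [h5, lt_div_iff₀ (by positivity)]
    push_cast
    have h6 : ((k : ℝ) + 1) ^ 3 * (434 * ((k : ℝ) + 1) ^ 5) ≤ 434 * 256 * (k : ℝ) ^ 8 := by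
      have : ((k : ℝ) + 1) ^ 8 ≤ (2 * (k : ℝ)) ^ 8 := by
        apply pow_le_pow_left₀ (by positivity)
        linarith
      calc ((k : ℝ) + 1) ^ 3 * (434 * ((k : ℝ) + 1) ^ 5) = 434 * ((k : ℝ) + 1) ^ 8 := by ring
        _ ≤ 434 * (2 * (k : ℝ)) ^ 8 := by linarith
        _ = 434 * 256 * (k : ℝ) ^ 8 := by ring
    calc ((k : ℝ) + 1) ^ 3 * (434 * ((k : ℝ) + 1) ^ 5) * (log k) ^ 17
        ≤ (434 * 256 * (k : ℝ) ^ 8) * ((c ^ 8 / (434 * 256 * 2001)) * k) := by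
          apply mul_le_mul h6 h3 (by positivity) (by positivity)
      _ = c ^ 8 / 2001 * k ^ 9 := by field_simp
      _ < 5 / 10000 * c ^ 8 * k ^ 9 := by
          have : 0 < c ^ 8 * (k : ℝ) ^ 9 := by positivity
          nlinarith

/-- a half gadget -/
structure Half (k : ℕ) (X : Finset ℕ) (h : ℕ → ℕ) : Prop where
  pr : ∀ a : Fin 14, ∃ q : ℕ, q.Prime ∧ q ∉ X ∧ val a h = q
  tip : ∀ j, 6 ≤ j → j ≤ 8 → (h j).Prime ∧ h j ∉ X
  w0 : 3740 * k < 10000 * h 0 ∧ 10000 * h 0 ≤ 3760 * k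
  w1 : 2390 * k < 10000 * h 1 ∧ 10000 * h 1 ≤ 2410 * k
  w2 : 2390 * k < 10000 * h 2 ∧ 10000 * h 2 ≤ 2410 * k
  w3 : 2390 * k < 10000 * h 3 ∧ 10000 * h 3 ≤ 2410 * k
  w4 : 3740 * k < 10000 * h 4 ∧ 10000 * h 4 ≤ 3760 * k
  w5 : 2390 * k < 10000 * h 5 ∧ 10000 * h 5 ≤ 2410 * k
  w6 : 3990 * k < 10000 * h 6 ∧ 10000 * h 6 ≤ 3995 * k
  w7 : 3995 * k < 10000 * h 7 ∧ 10000 * h 7 ≤ 4005 * k
  w8 : 4005 * k < 10000 * h 8 ∧ 10000 * h 8 ≤ 4010 * k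
  p1 : 126 < (cnb rP k X (h 1)).card
  p2 : 126 < (cnb rP k X (h 2)).card
  p3 : 126 < (cnb rP k X (h 3)).card
  p5 : 126 < (cnb rP k X (h 5)).card

end Pool.Agent.Helper91_SP
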