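import Pool.Agent.Helper91_SP.Half

/-!
# Existence of the two half-gadgets
-/

set_option autoImplicit false

namespace Pool.Agent.Helper91_SP

open Real Filter Topology

open Classical in
theorem halves (hD : DegMinus) (hU : Up) : ∃ δ : ℝ, 0 < δ ∧ ∃ K : ℕ, ∀ k : ℕ, K ≤ k →
    ∀ X : Finset ℕ, (∀ z ∈ X, z.Prime ∧ (k : ℝ) / 100 ≤ z) → (X.card : ℝ) ≤ δ * k / log k →
    ∃ g g' : ℕ → ℕ, Half k X g ∧ Half k X g' ∧ (∀ j, 6 ≤ j → g j = g' j) ∧
      Function.Injective (fun a => val a g) ∧ Function.Injective (fun a => val a g') ∧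
      (∀ a b, val a g ≠ val b g') ∧
      (∀ a, ∀ j, 6 ≤ j → j ≤ 8 → val a g ≠ g j) ∧
      (∀ a, ∀ j, 6 ≤ j → j ≤ 8 → val a g' ≠ g j) := by
  obtain ⟨c, hc, C, hC, hstep⟩ := step hD hU Rels Rels_ok
  have hδ : (0 : ℝ) < 5 / 10000 / C ^ 4 := by positivity
  set δ : ℝ := 5 / 10000 / C ^ 4 with hδdef
  obtain ⟨K1, h1⟩ := hstep δ hδ
  obtain ⟨K2, h2⟩ := hstep (C * δ) (by positivity)
  obtain ⟨K3, h3⟩ := hstep (C * (C * δ)) (by positivity)
  obtain ⟨K4, h4⟩ := hstep (C * (C * (C * δ))) (by positivity)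
  obtain ⟨K5, h5⟩ := PW_lower (3740 / 10000) (3760 / 10000) (by norm_num) (by norm_num)
    (by norm_num)
  obtain ⟨K6, h6⟩ := growth c hc
  refine ⟨δ, hδ, K1 + K2 + K3 + K4 + K5 + K6 + 3, fun k hk X hX hXc => ?_⟩
  obtain ⟨B1, hXB1, hB1, hB1c, hR1⟩ := h1 k (by omega) X hX hXc
  obtain ⟨B2, hB12, hB2, hB2c, hR2⟩ := h2 k (by omega) B1 hB1 hB1c
  obtain ⟨B3, hB23, hB3, hB3c, hR3⟩ := h3 k (by omega) B2 hB2 hB2c
  obtain ⟨B4, hB34, hB4, hB4c, hR4⟩ := h4 k (by omega) B3 hB3 hB3c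
  have hU0 := h5 k (by omega)
  obtain ⟨hg1, hg2⟩ := h6 k (by omega)
  have hk3 : 3 ≤ k := by omega
  have hk3' : (3 : ℝ) ≤ k := by exact_mod_cast hk3
  have hL : 0 < log k := log_pos (by linarith)
  let G : ℕ → Finset ℕ := fun j => match j with
    | 0 => PW k (3740 / 10000) (3760 / 10000) \ B4
    | 1 => PW k (2390 / 10000) (2410 / 10000) \ B3
    | 2 => PW k (2390 / 10000) (2410 / 10000) \ B3
    | 3 => PW k (2390 / 10000) (2410 / 10000) \ B3
    | 4 => PW k (3740 / 10000) (3760 / 10000) \ B2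
    | 5 => PW k (2390 / 10000) (2410 / 10000) \ B1
    | 6 => PW k (3990 / 10000) (3995 / 10000) \ X
    | 7 => PW k (3995 / 10000) (4005 / 10000) \ X
    | 8 => PW k (4005 / 10000) (4010 / 10000) \ X
    | _ => ∅
  let f : ℕ → ℕ → Finset ℕ := fun j v => match j with
    | 1 => cnb rA k B3 v
    | 2 => cnb rC k B3 v
    | 3 => cnb rD k B3 v
    | 4 => cnb rB k B2 v
    | 5 => cnb rA k B1 v
    | 6 => cnb rT0 k X v
    | 7 => cnb rT1 k X v
    | 8 => cnb rT2 k X v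
    | _ => ∅
  let par : ℕ → ℕ := fun j => match j with
    | 4 => 3
    | 5 => 4
    | 6 => 1
    | 7 => 2
    | 8 => 5
    | _ => 0
  have hpar : ∀ j, 1 ≤ j → par j < j := by
    intro j hj
    simp only [par]
    split <;> omega
  have hsub : ∀ (ρ : Rel) (B : Finset ℕ) (v : ℕ), cnb ρ k B v ⊆ PW k ρ.y0 ρ.y1 \ B := by
    intro ρ B v p hp
    have := cnb_spec hp
    exact Finset.mem_sdiff.2 ⟨this.1, this.2.1⟩
  have hf : ∀ j, 1 ≤ j → j ≤ 8 → ∀ v ∈ G (par j), f j v ⊆ G j ∧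
      c * k / (log k) ^ 2 ≤ ((f j v).card : ℝ) := by
    intro j hj1 hj2 v hv
    interval_cases j
    · have hv' : v ∈ PW k (3740 / 10000) (3760 / 10000) \ B4 := hv
      rw [Finset.mem_sdiff] at hv'
      exact ⟨hsub rA B3 v, hR4 rA (by simp [Rels]) v hv'.1 hv'.2⟩
    · have hv' : v ∈ PW k (3740 / 10000) (3760 / 10000) \ B4 := hv
      rw [Finset.mem_sdiff] at hv'
      exact ⟨hsub rC B3 v, hR4 rC (by simp [Rels]) v hv'.1 hv'.2⟩
    · have hv' : v ∈ PW k (3740 / 10000) (3760 / 10000) \ B4 := hv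
      rw [Finset.mem_sdiff] at hv'
      exact ⟨hsub rD B3 v, hR4 rD (by simp [Rels]) v hv'.1 hv'.2⟩
    · have hv' : v ∈ PW k (2390 / 10000) (2410 / 10000) \ B3 := hv
      rw [Finset.mem_sdiff] at hv'
      exact ⟨hsub rB B2 v, hR3 rB (by simp [Rels]) v hv'.1 hv'.2⟩
    · have hv' : v ∈ PW k (3740 / 10000) (3760 / 10000) \ B2 := hv
      rw [Finset.mem_sdiff] at hv'
      exact ⟨hsub rA B1 v, hR2 rA (by simp [Rels]) v hv'.1 hv'.2⟩
    · have hv' : v ∈ PW k (2390 / 10000) (2410 / 10000) \ B3 := hv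
      rw [Finset.mem_sdiff] at hv'
      exact ⟨hsub rT0 X v, hR1 rT0 (by simp [Rels]) v hv'.1 (fun h => hv'.2 (hB23 (hB12 h)))⟩
    · have hv' : v ∈ PW k (2390 / 10000) (2410 / 10000) \ B3 := hv
      rw [Finset.mem_sdiff] at hv'
      exact ⟨hsub rT1 X v, hR1 rT1 (by simp [Rels]) v hv'.1 (fun h => hv'.2 (hB23 (hB12 h)))⟩
    · have hv' : v ∈ PW k (2390 / 10000) (2410 / 10000) \ B1 := hv
      rw [Finset.mem_sdiff] at hv'
      exact ⟨hsub rT2 X v, hR1 rT2 (by simp [Rels]) v hv'.1 hv'.2⟩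
  obtain ⟨S, hScard, hS⟩ := tree par hpar G f (c * k / (log k) ^ 2) (by positivity) 8 hf
  -- the root set is large
  have hG0 : 5 / 10000 * k / log k ≤ ((G 0).card : ℝ) := by
    have h7 : (PW k (3740 / 10000) (3760 / 10000)).card ≤ (G 0).card + B4.card := by
      have : (PW k (3740 / 10000) (3760 / 10000)) ⊆ (G 0) ∪ B4 := by
        intro v hv
        rw [Finset.mem_union]
        by_cases h : v ∈ B4
        · right; exact h
        · left; exact Finset.mem_sdiff.2 ⟨hv, h⟩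
      exact (Finset.card_le_card this).trans (Finset.card_union_le _ _)
    have h8 : ((PW k (3740 / 10000) (3760 / 10000)).card : ℝ) ≤ (G 0).card + B4.card := by
      exact_mod_cast h7
    have h9 : C * (C * (C * (C * δ))) = 5 / 10000 := by
      rw [hδdef]; field_simp
    rw [h9] at hB4c
    have h10 : ((3760 : ℝ) / 10000 - 3740 / 10000) / 2 * k / log k
        = 5 / 10000 * k / log k + 5 / 10000 * k / log k := by ring
    rw [h10] at hU0
    linarith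
  have hSlarge : (k + 1) ^ 3 * (434 * (k + 1) ^ 5) < S.card := by
    have : (((k + 1) ^ 3 * (434 * (k + 1) ^ 5) : ℕ) : ℝ) < S.card := by
      refine hg2.trans_le (le_trans ?_ hScard)
      exact mul_le_mul_of_nonneg_right hG0 (by positivity)
    exact_mod_cast this
  have hle : ∀ x0 x1 : ℝ, x1 ≤ 1 → ∀ (B : Finset ℕ) (p : ℕ), p ∈ PW k x0 x1 \ B → p ≤ k := by
    intro x0 x1 h B p hp
    exact (Finset.mem_Icc.1 (PW_sub_Icc h (Finset.mem_sdiff.1 hp).1)).2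
  have hGk : ∀ j, ∀ p ∈ G j, p ≤ k := by
    intro j p hp
    rcases Nat.lt_or_ge 8 j with hj | hj
    · have : G j = ∅ := by
        obtain ⟨i, rfl⟩ : ∃ i, j = i + 9 := ⟨j - 9, by omega⟩
        rfl
      rw [this] at hp
      simp at hp
    · interval_cases j <;> exact hle _ _ (by norm_num) _ _ hp
  have hSk : ∀ g ∈ S, ∀ j, g j ≤ k := by
    intro g hg j
    rcases Nat.lt_or_ge 8 j with hj | hj
    · rw [(hS g hg).1 j hj]; omega
    · exact hGk j _ ((hS g hg).2.1 j hj)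
  obtain ⟨g, hg, g', hg', hag, hin, hin', hne, ht, ht'⟩ :=
    two_picks k S (fun g hg j hj => (hS g hg).1 j hj) hSk hSlarge
  -- half gadgets
  have hHalf : ∀ g ∈ S, Half k X g := by
    intro g hg
    obtain ⟨-, hmem, hch⟩ := hS g hg
    have m0 : g 0 ∈ PW k (3740 / 10000) (3760 / 10000) \ B4 := hmem 0 (by omega)
    have m1 : g 1 ∈ PW k (2390 / 10000) (2410 / 10000) \ B3 := hmem 1 (by omega)
    have m2 : g 2 ∈ PW k (2390 / 10000) (2410 / 10000) \ B3 := hmem 2 (by omega)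
    have m3 : g 3 ∈ PW k (2390 / 10000) (2410 / 10000) \ B3 := hmem 3 (by omega)
    have m4 : g 4 ∈ PW k (3740 / 10000) (3760 / 10000) \ B2 := hmem 4 (by omega)
    have m5 : g 5 ∈ PW k (2390 / 10000) (2410 / 10000) \ B1 := hmem 5 (by omega)
    have m6 : g 6 ∈ PW k (3990 / 10000) (3995 / 10000) \ X := hmem 6 (by omega)
    have m7 : g 7 ∈ PW k (3995 / 10000) (4005 / 10000) \ X := hmem 7 (by omega)
    have m8 : g 8 ∈ PW k (4005 / 10000) (4010 / 10000) \ X := hmem 8 (by omega)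
    have c1 : g 1 ∈ cnb rA k B3 (g 0) := hch 1 (by omega) (by omega)
    have c2 : g 2 ∈ cnb rC k B3 (g 0) := hch 2 (by omega) (by omega)
    have c3 : g 3 ∈ cnb rD k B3 (g 0) := hch 3 (by omega) (by omega)
    have c4 : g 4 ∈ cnb rB k B2 (g 3) := hch 4 (by omega) (by omega)
    have c5 : g 5 ∈ cnb rA k B1 (g 4) := hch 5 (by omega) (by omega)
    have c6 : g 6 ∈ cnb rT0 k X (g 1) := hch 6 (by omega) (by omega)
    have c7 : g 7 ∈ cnb rT1 k X (g 2) := hch 7 (by omega) (by omega)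
    have c8 : g 8 ∈ cnb rT2 k X (g 5) := hch 8 (by omega) (by omega)
    rw [Finset.mem_sdiff] at m0 m1 m2 m3 m4 m5 m6 m7 m8
    have s1 : X ⊆ B1 := hXB1
    have s2 : X ⊆ B2 := s1.trans hB12
    have s3 : X ⊆ B3 := s2.trans hB23
    have s4 : X ⊆ B4 := s3.trans hB34
    have pend : ∀ y, y ∈ PW k (2390 / 10000) (2410 / 10000) → y ∉ B1 →
        126 < (cnb rP k X y).card := by
      intro y hy hyB
      have h7 : c * k / (log k) ^ 2 ≤ ((cnb rP k X y).card : ℝ) :=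
        hR1 rP (by simp [Rels]) y hy hyB
      have h8 : (126 : ℝ) < ((cnb rP k X y).card : ℝ) := hg1.trans_le h7
      exact_mod_cast h8
    obtain ⟨v0, v1, v2, v3, v4, v5, v6, v7, v8, v9, v10, v11, v12, v13⟩ := val_eq g
    have wn : ∀ A B : ℕ, ∀ p, p ∈ PW k ((A : ℝ) / 10000) ((B : ℝ) / 10000) →
      A * k < 10000 * p ∧ 10000 * p ≤ B * k := fun A B p h => win h
    refine ⟨?_, ?_, ?_, ?_, ?_, ?_, ?_, ?_, ?_, ?_, ?_, ?_, ?_, ?_, ?_⟩
    · intro a
      fin_cases a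
      · exact ⟨g 0, (mem_PW m0.1).1, fun h => m0.2 (s4 h), v0⟩
      · exact ⟨g 1, (mem_PW m1.1).1, fun h => m1.2 (s3 h), v1⟩
      · exact ⟨g 2, (mem_PW m2.1).1, fun h => m2.2 (s3 h), v2⟩
      · exact ⟨g 3, (mem_PW m3.1).1, fun h => m3.2 (s3 h), v3⟩
      · exact ⟨g 4, (mem_PW m4.1).1, fun h => m4.2 (s2 h), v4⟩
      · exact ⟨g 5, (mem_PW m5.1).1, fun h => m5.2 (s1 h), v5⟩
      · obtain ⟨-, -, q, hq, hqX, hqe⟩ := cnb_spec c1
        exact ⟨q, hq, fun h => hqX (s3 h), v6.trans hqe⟩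
      · obtain ⟨-, -, q, hq, hqX, hqe⟩ := cnb_spec c2
        exact ⟨q, hq, fun h => hqX (s3 h), v7.trans hqe⟩
      · obtain ⟨-, -, q, hq, hqX, hqe⟩ := cnb_spec c3
        exact ⟨q, hq, fun h => hqX (s3 h), v8.trans hqe⟩
      · obtain ⟨-, -, q, hq, hqX, hqe⟩ := cnb_spec c4
        exact ⟨q, hq, fun h => hqX (s2 h), v9.trans hqe⟩
      · obtain ⟨-, -, q, hq, hqX, hqe⟩ := cnb_spec c5
        exact ⟨q, hq, fun h => hqX (s1 h), v10.trans hqe⟩
      · obtain ⟨-, -, q, hq, hqX, hqe⟩ := cnb_spec c6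
        exact ⟨q, hq, hqX, v11.trans hqe⟩
      · obtain ⟨-, -, q, hq, hqX, hqe⟩ := cnb_spec c7
        exact ⟨q, hq, hqX, v12.trans hqe⟩
      · obtain ⟨-, -, q, hq, hqX, hqe⟩ := cnb_spec c8
        exact ⟨q, hq, hqX, v13.trans hqe⟩
    · intro j hj1 hj2
      interval_cases j
      · exact ⟨(mem_PW m6.1).1, m6.2⟩
      · exact ⟨(mem_PW m7.1).1, m7.2⟩
      · exact ⟨(mem_PW m8.1).1, m8.2⟩
    · exact wn 3740 3760 _ (by exact_mod_cast m0.1)
    · exact wn 2390 2410 _ (by exact_mod_cast m1.1)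
    · exact wn 2390 2410 _ (by exact_mod_cast m2.1)
    · exact wn 2390 2410 _ (by exact_mod_cast m3.1)
    · exact wn 3740 3760 _ (by exact_mod_cast m4.1)
    · exact wn 2390 2410 _ (by exact_mod_cast m5.1)
    · exact wn 3990 3995 _ (by exact_mod_cast m6.1)
    · exact wn 3995 4005 _ (by exact_mod_cast m7.1)
    · exact wn 4005 4010 _ (by exact_mod_cast m8.1)
    · exact pend _ m1.1 (fun h => m1.2 (hB23 (hB12 h)))
    · exact pend _ m2.1 (fun h => m2.2 (hB23 (hB12 h)))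
    · exact pend _ m3.1 (fun h => m3.2 (hB23 (hB12 h)))
    · exact pend _ m5.1 m5.2
  exact ⟨g, g', hHalf g hg, hHalf g' hg', hag, hin, hin', hne, ht, ht'⟩

end Pool.Agent.Helper91_SP
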