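import Pool.Agent.Helper91_SP.Defs
import Pool.Agent.Common_Sieve.Count

/-!
# Local densities
-/

set_option autoImplicit false

namespace Pool.Agent.Helper91_SP

open Pool.Agent.Common_Sieve

lemma prod_ge (w : ℕ) (hw : 2 ≤ w) :
    (w : ℝ) / (w - 1) ≤ ∏ p ∈ (Finset.range (w + 1)).filter Nat.Prime,
      ((p : ℝ) * (if p = 2 then 1 else (p : ℝ) - 2) / ((p : ℝ) - 1) ^ 2) := by
  induction w, hw using Nat.le_induction with
  | base =>
    have : (Finset.range (2 + 1)).filter Nat.Prime = {2} := by decide
    rw [this]; norm_num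
  | succ w hw ih =>
    have hw' : (2 : ℝ) ≤ w := by exact_mod_cast hw
    have h1 : (w : ℝ) - 1 ≠ 0 := by linarith
    have h2 : (w : ℝ) ≠ 0 := by linarith
    rw [Finset.range_add_one, Finset.filter_insert]
    split_ifs with hp
    · rw [Finset.prod_insert (by simp)]
      have hne : w + 1 ≠ 2 := by omega
      rw [if_neg hne]
      push_cast
      calc ((w : ℝ) + 1) / ((w : ℝ) + 1 - 1)
          = (((w : ℝ) + 1) * ((w : ℝ) + 1 - 2) / ((w : ℝ) + 1 - 1) ^ 2) * ((w : ℝ) / (w - 1)) := by
            have h3 : (w : ℝ) + 1 - 1 = w := by ring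
            have h4 : (w : ℝ) + 1 - 2 = w - 1 := by ring
            rw [h3, h4]
            field_simp
        _ ≤ _ := by
            apply mul_le_mul_of_nonneg_left ih
            apply div_nonneg
            · apply mul_nonneg <;> linarith
            · positivity
    · refine le_trans ?_ ih
      push_cast
      have h3 : (w : ℝ) + 1 - 1 = w := by ring
      rw [h3, div_le_div_iff₀ (by linarith) (by linarith)]
      nlinarith

lemma totient_prod (D : Finset ℕ) (hD : ∀ p ∈ D, p.Prime) :
    Nat.totient (∏ p ∈ D, p) = ∏ p ∈ D, (p - 1) := by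
  induction D using Finset.induction_on with
  | empty => simp
  | insert a D ha ih =>
    rw [Finset.prod_insert ha, Finset.prod_insert ha, Nat.totient_mul, ih,
      Nat.totient_prime (hD a (Finset.mem_insert_self _ _))]
    · exact fun p hp => hD p (Finset.mem_insert_of_mem hp)
    · apply Nat.Coprime.prod_right
      intro p hp
      rw [Nat.coprime_primes (hD a (Finset.mem_insert_self _ _))
        (hD p (Finset.mem_insert_of_mem hp))]
      rintro rfl; exact ha hp

/-- local condition at `p` -/
def PP (a b x : ℤ) (p : ℕ) (n : ℤ) : Prop := ¬ (p : ℤ) ∣ n ∧ ¬ (p : ℤ) ∣ (a * x + b * n)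

instance instDecPP (a b x : ℤ) (p : ℕ) (n : ℤ) : Decidable (PP a b x p n) := by
  unfold PP; infer_instance

lemma PP_periodic (a b x : ℤ) (p : ℕ) (n : ℤ) : PP a b x p (n + p) ↔ PP a b x p n := by
  unfold PP
  have h1 : (p : ℤ) ∣ n + p ↔ (p : ℤ) ∣ n := by
    exact dvd_add_self_right
  have h2 : (p : ℤ) ∣ a * x + b * (n + p) ↔ (p : ℤ) ∣ a * x + b * n := by
    have : a * x + b * (n + p) = (a * x + b * n) + p * b := by ring
    rw [this]
    exact dvd_add_left (dvd_mul_right _ _)
  rw [h1, h2]

lemma cnt_PP_ge (a b x : ℤ) (hab : IsCoprime a b) (hodd : Odd (a + b)) (p : ℕ) (hp : p.Prime)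
    (hpx : ¬ (p : ℤ) ∣ x) : (if p = 2 then 1 else (p : ℝ) - 2) ≤ (cnt (PP a b x) p : ℝ) := by
  have hpi : Prime (p : ℤ) := Nat.prime_iff_prime_int.1 hp
  split_ifs with h2
  · subst h2
    have : 0 < cnt (PP a b x) 2 := by
      apply Finset.card_pos.2
      refine ⟨1, Finset.mem_filter.2 ⟨by decide, ?_, ?_⟩⟩
      · norm_num
      · intro h
        obtain ⟨c, hc⟩ := hodd
        obtain ⟨d, hd⟩ := h
        have hx : x % 2 = 1 := by
          push_cast at hpx
          omega
        have hx' : x = 2 * (x / 2) + 1 := by omega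
        push_cast at hd
        rw [hx'] at hd
        have h3 : a + b = 2 * (d - a * (x / 2)) := by linarith
        omega
    exact_mod_cast this
  · have h1 : ((Finset.range p).filter (fun r : ℕ => ¬ PP a b x p (r : ℤ))).card ≤ 2 := by
      have hsub : (Finset.range p).filter (fun r : ℕ => ¬ PP a b x p (r : ℤ)) ⊆
          (Finset.range p).filter (fun r : ℕ => (p : ℤ) ∣ (r : ℤ)) ∪
          (Finset.range p).filter (fun r : ℕ => (p : ℤ) ∣ (a * x + b * (r : ℤ))) := by
        intro r hr
        rw [Finset.mem_filter] at hr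
        rw [Finset.mem_union, Finset.mem_filter, Finset.mem_filter]
        by_cases h : (p : ℤ) ∣ (r : ℤ)
        · exact Or.inl ⟨hr.1, h⟩
        · right
          refine ⟨hr.1, ?_⟩
          by_contra h'
          exact hr.2 ⟨h, h'⟩
      have hA : ((Finset.range p).filter (fun r : ℕ => (p : ℤ) ∣ (r : ℤ))).card ≤ 1 := by
        rw [Finset.card_le_one]
        intro r hr r' hr'
        rw [Finset.mem_filter, Finset.mem_range] at hr hr'
        have e1 := Nat.eq_zero_of_dvd_of_lt (Int.natCast_dvd_natCast.1 hr.2) hr.1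
        have e2 := Nat.eq_zero_of_dvd_of_lt (Int.natCast_dvd_natCast.1 hr'.2) hr'.1
        rw [e1, e2]
      have hB : ((Finset.range p).filter
          (fun r : ℕ => (p : ℤ) ∣ (a * x + b * (r : ℤ)))).card ≤ 1 := by
        rw [Finset.card_le_one]
        intro r hr r' hr'
        rw [Finset.mem_filter, Finset.mem_range] at hr hr'
        have h3 : (p : ℤ) ∣ b * ((r : ℤ) - r') := by
          have := dvd_sub hr.2 hr'.2
          have h4 : a * x + b * (r : ℤ) - (a * x + b * r') = b * ((r : ℤ) - r') := by ring
          rwa [h4] at this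
        rcases hpi.dvd_or_dvd h3 with h4 | h4
        · exfalso
          have h5 : (p : ℤ) ∣ a * x := by
            have := dvd_sub hr.2 (h4.mul_right (r : ℤ))
            simpa using this
          rcases hpi.dvd_or_dvd h5 with h6 | h6
          · obtain ⟨u, v, huv⟩ := hab
            apply hpi.not_isUnit
            apply isUnit_of_dvd_one
            rw [← huv]
            exact dvd_add (h6.mul_left u) (h4.mul_left v)
          · exact hpx h6
        · by_contra hne
          have h5 : ((r : ℤ) - r').natAbs < p := by omega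
          have h6 := Int.eq_zero_of_abs_lt_dvd h4 (by rw [Int.abs_eq_natAbs]; exact_mod_cast h5)
          omega
      exact (Finset.card_le_card hsub).trans ((Finset.card_union_le _ _).trans (by omega))
    have h3 := Finset.card_filter_add_card_filter_not (s := Finset.range p)
      (fun r : ℕ => PP a b x p (r : ℤ))
    rw [Finset.card_range] at h3
    have h4 : p ≤ cnt (PP a b x) p + 2 := by
      unfold cnt
      omega
    have h5 : (p : ℝ) ≤ cnt (PP a b x) p + 2 := by exact_mod_cast h4
    linarith

/-- the local factors have product at least `1` -/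
lemma density_ge (a b x : ℤ) (hab : IsCoprime a b) (hodd : Odd (a + b)) (w : ℕ)
    (hx : ∀ p : ℕ, p.Prime → p ≤ w → ¬ (p : ℤ) ∣ x) (D : Finset ℕ)
    (hD : D = (Finset.range (w + 1)).filter Nat.Prime) :
    (Nat.totient (primorial w) : ℝ) ^ 2 ≤ (primorial w : ℝ) *
      (((Finset.range (primorial w)).filter
        (fun r : ℕ => ∀ p ∈ D, PP a b x p (r : ℤ))).card : ℝ) := by
  have hDp : ∀ p ∈ D, p.Prime := fun p hp => (Finset.mem_filter.1 (hD ▸ hp)).2
  have hprim : primorial w = ∏ p ∈ D, p := by rw [hD]; rfl
  rw [hprim, card_range_prod (PP a b x) (PP_periodic a b x) D hDp, totient_prod D hDp]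
  push_cast
  have h1 : ∀ p ∈ D, (0 : ℝ) < ((p - 1 : ℕ) : ℝ) := by
    intro p hp
    have := (hDp p hp).two_le
    have : 0 < p - 1 := by omega
    exact_mod_cast this
  rw [← Finset.prod_pow, ← Finset.prod_mul_distrib]
  have h2 : 1 ≤ ∏ p ∈ D, ((p : ℝ) * (cnt (PP a b x) p : ℝ) / ((p - 1 : ℕ) : ℝ) ^ 2) := by
    rcases Nat.lt_or_ge w 2 with hw | hw
    · have : D = ∅ := by
        rw [hD]
        interval_cases w <;> decide
      rw [this]; simp
    · have h3 := prod_ge w hw
      have hw' : (2 : ℝ) ≤ w := by exact_mod_cast hw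
      have h4 : (1 : ℝ) ≤ (w : ℝ) / (w - 1) := by
        rw [le_div_iff₀ (by linarith)]; linarith
      rw [← hD] at h3
      refine (h4.trans h3).trans ?_
      apply Finset.prod_le_prod
      · intro p hp
        have hp2 := (hDp p hp).two_le
        have hp2' : (2 : ℝ) ≤ p := by exact_mod_cast hp2
        apply div_nonneg _ (by positivity)
        apply mul_nonneg (by positivity)
        split_ifs
        · norm_num
        · linarith
      · intro p hp
        have hp' := hDp p hp
        have h5 : ((p - 1 : ℕ) : ℝ) = (p : ℝ) - 1 := by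
          rw [Nat.cast_sub hp'.one_lt.le]; simp
        rw [h5]
        apply div_le_div_of_nonneg_right _ (by positivity)
        apply mul_le_mul_of_nonneg_left _ (by positivity)
        have hple : p ≤ w := by
          have := Finset.mem_range.1 (Finset.mem_filter.1 (hD ▸ hp)).1
          omega
        exact cnt_PP_ge a b x hab hodd p hp' (hx p hp' hple)
  rw [Finset.prod_div_distrib, le_div_iff₀ (Finset.prod_pos (fun p hp => by
    have := h1 p hp; positivity)), one_mul] at h2
  exact h2

end Pool.Agent.Helper91_SP
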