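import Pool.Agent.Helper91_SP.Halves

/-!
# From the half-gadgets to the theorem
-/

set_option autoImplicit false

namespace Pool.Agent.Helper91_SP

open Real Filter Topology

/-- positions of the `x`-values -/
def σx : Fin 6 → Fin 14 := ![0, 4, 1, 2, 5, 3]

/-- positions of the `e`-values -/
def σe : Fin 8 → Fin 14 := ![6, 7, 8, 9, 10, 11, 12, 13]

lemma σ_inj : ∀ a b : Fin 6 ⊕ Fin 8, Sum.elim σx σe a = Sum.elim σx σe b → a = b := by
  decide +kernel

theorem gadget_of_halves {m k : ℕ} (hm : 200 * m ≤ k) (X : Finset ℕ) (g g' : ℕ → ℕ)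
    (H : Half k X g) (H' : Half k X g') (hag : ∀ j, 6 ≤ j → g j = g' j)
    (hin : Function.Injective (fun a => val a g)) (hin' : Function.Injective (fun a => val a g'))
    (hne : ∀ a b, val a g ≠ val b g')
    (ht : ∀ a, ∀ j, 6 ≤ j → j ≤ 8 → val a g ≠ g j)
    (ht' : ∀ a, ∀ j, 6 ≤ j → j ≤ 8 → val a g' ≠ g j) (z : ℕ) :
    ∃ D : Finset ℕ, D.card ≤ 63 ∧ Disjoint D X ∧ ∃ r, Good m k D r ∧ Cov D r z := by
  classical
  let hh : Bool → ℕ → ℕ := fun b => match b with
    | false => g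
    | true => g'
  have HH : ∀ b, Half k X (hh b) := by
    intro b; cases b
    · exact H
    · exact H'
  have hhag : ∀ b j, 6 ≤ j → hh b j = g j := by
    intro b j hj; cases b
    · rfl
    · exact (hag j hj).symm
  have hex : ∀ b a, ∃ q : ℕ, q.Prime ∧ q ∉ X ∧ val a (hh b) = q := fun b a => (HH b).pr a
  choose Q hQp hQX hQv using hex
  have hQinj : ∀ b a b' a', Q b a = Q b' a' → b = b' ∧ a = a' := by
    intro b a b' a' h
    have h1 : val a (hh b) = val a' (hh b') := by rw [hQv, hQv, h]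
    cases b <;> cases b'
    · exact ⟨rfl, hin h1⟩
    · exact absurd h1 (hne a a')
    · exact absurd h1.symm (hne a' a)
    · exact ⟨rfl, hin' h1⟩
  have hQt : ∀ b a j, 6 ≤ j → j ≤ 8 → Q b a ≠ g j := by
    intro b a j h1 h2 h
    cases b
    · exact ht a j h1 h2 ((hQv false a).trans (by rw [h]))
    · exact ht' a j h1 h2 ((hQv true a).trans (by rw [h]))
  let x : Bool → Fin 6 → ℕ := fun b i => Q b (σx i)
  let e : Bool → Fin 8 → ℕ := fun b j => Q b (σe j)
  let t : Fin 3 → ℕ := fun i => g (6 + i.val)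
  let V : Finset ℕ := (Finset.univ.image (fun ba : Bool × Fin 14 => Q ba.1 ba.2)) ∪
    (Finset.univ.image t)
  have hV : V.card ≤ 31 := by
    refine (Finset.card_union_le _ _).trans ?_
    have h1 : (Finset.univ.image (fun ba : Bool × Fin 14 => Q ba.1 ba.2)).card ≤ 28 :=
      Finset.card_image_le.trans (by simp)
    have h2 : (Finset.univ.image t).card ≤ 3 := Finset.card_image_le.trans (by simp)
    omega
  have q0 : ∀ b, Q b 0 = hh b 0 ∧ Q b 1 = hh b 1 ∧ Q b 2 = hh b 2 ∧ Q b 3 = hh b 3 ∧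
      Q b 4 = hh b 4 ∧ Q b 5 = hh b 5 ∧ Q b 6 = 2 * Q b 0 + Q b 1 ∧
      Q b 7 + Q b 2 = 2 * Q b 0 ∧ Q b 8 + Q b 0 = 4 * Q b 3 ∧ Q b 9 + Q b 3 = 2 * Q b 4 ∧
      Q b 10 = 2 * Q b 4 + Q b 5 ∧ Q b 11 + g 6 = 4 * Q b 1 ∧ Q b 12 + g 7 = 4 * Q b 2 ∧
      Q b 13 + g 8 = 4 * Q b 5 := by
    intro b
    obtain ⟨v0, v1, v2, v3, v4, v5, v6, v7, v8, v9, v10, v11, v12, v13⟩ := val_eq (hh b)
    rw [hQv] at v0 v1 v2 v3 v4 v5 v6 v7 v8 v9 v10 v11 v12 v13
    rw [hhag b 6 (by omega)] at v11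
    rw [hhag b 7 (by omega)] at v12
    rw [hhag b 8 (by omega)] at v13
    refine ⟨by omega, by omega, by omega, by omega, by omega, by omega, by omega, by omega,
      by omega, by omega, by omega, by omega, by omega, by omega⟩
  let J := Bool × Fin 4 × Bool
  let C : J → Finset ℕ := fun j => cnb rP k X (x j.1 (yi j.2.1))
  let s : J → ℕ := fun j => 2 * x j.1 (yi j.2.1)
  have hxpos : ∀ b i, 0 < x b i := fun b i => (hQp b _).pos
  obtain ⟨w, hwC, hwV, hw1, hw2⟩ := pend V C s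
    (fun j => by show 0 < 2 * x j.1 (yi j.2.1); have := hxpos j.1 (yi j.2.1); omega)
    (Finset.univ : Finset J) (by
      rintro ⟨b, i, c⟩ -
      have h1 : (Finset.univ : Finset J).card = 16 := by decide +kernel
      have h2 : 126 < (C (b, i, c)).card := by
        show 126 < (cnb rP k X (Q b (σx (yi i)))).card
        obtain ⟨a0, a1, a2, a3, a4, a5, -⟩ := q0 b
        fin_cases i
        · show 126 < (cnb rP k X (Q b 1)).card
          rw [a1]; exact (HH b).p1
        · show 126 < (cnb rP k X (Q b 2)).card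
          rw [a2]; exact (HH b).p2
        · show 126 < (cnb rP k X (Q b 5)).card
          rw [a5]; exact (HH b).p5
        · show 126 < (cnb rP k X (Q b 3)).card
          rw [a3]; exact (HH b).p3
      omega)
  have hall : ∀ i, (fv x e t w i).Prime ∧ fv x e t w i ∉ X := by
    rintro (⟨b, i | j⟩ | i | ⟨⟨b, i, c⟩, h⟩)
    · exact ⟨hQp b _, hQX b _⟩
    · exact ⟨hQp b _, hQX b _⟩
    · exact H.tip (6 + i.val) (by omega) (by omega)
    · obtain ⟨h1, h2, q, hq, hqX, hqe⟩ := cnb_spec (hwC (b, i, c) (Finset.mem_univ _))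
      cases h
      · exact ⟨(mem_PW h1).1, h2⟩
      · have h3 : fv x e t w (.inr (.inr ((b, i, c), true))) = q := by
          show w (b, i, c) + 2 * x b (yi i) = q
          simp only [rP] at hqe
          omega
        rw [h3]
        exact ⟨hq, hqX⟩
  have hVQ : ∀ b a, Q b a ∈ V := fun b a =>
    Finset.mem_union_left _ (Finset.mem_image.2 ⟨(b, a), Finset.mem_univ _, rfl⟩)
  have hVt : ∀ i, t i ∈ V := fun i =>
    Finset.mem_union_right _ (Finset.mem_image.2 ⟨i, Finset.mem_univ _, rfl⟩)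
  have htinj : ∀ i j, t i = t j → i = j := by
    intro i j h
    have h6 := H.w6
    have h7 := H.w7
    have h8 := H.w8
    fin_cases i <;> fin_cases j <;> first | rfl | (exfalso; simp [t] at h; omega)
  have F1 : ∀ b s, fv x e t w (.inl (b, s)) = Q b (Sum.elim σx σe s) := by
    intro b s; cases s <;> rfl
  have F5 : ∀ j h, fv x e t w (.inr (.inr (j, h))) ∉ V := by
    rintro ⟨b, i, c⟩ h
    have := hwV (b, i, c) (Finset.mem_univ _)
    cases h
    · exact this.1
    · exact this.2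
  have hinj : Function.Injective (fv x e t w) := by
    rintro (⟨b, s1⟩ | i | ⟨j, h⟩) (⟨b', s1'⟩ | i' | ⟨j', h'⟩) hab
    · rw [F1, F1] at hab
      obtain ⟨rfl, h2⟩ := hQinj _ _ _ _ hab
      rw [σ_inj _ _ h2]
    · rw [F1] at hab
      exact absurd hab (hQt _ _ _ (by omega) (by omega))
    · rw [F1] at hab
      exact absurd (hab ▸ hVQ _ _) (F5 j' h')
    · rw [F1] at hab
      exact absurd hab.symm (hQt _ _ _ (by omega) (by omega))
    · rw [htinj i i' hab]
    · have h1 : t i = fv x e t w (.inr (.inr (j', h'))) := hab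
      exact absurd (h1 ▸ hVt i) (F5 j' h')
    · rw [F1] at hab
      exact absurd (hab ▸ hVQ _ _) (F5 j h)
    · have h1 : fv x e t w (.inr (.inr (j, h))) = t i' := hab
      exact absurd (h1 ▸ hVt i') (F5 j h)
    · obtain ⟨b, i, c⟩ := j
      obtain ⟨b', i', c'⟩ := j'
      have hu : ∀ j : J, j ∈ (Finset.univ : Finset J) := fun j => Finset.mem_univ _
      cases h <;> cases h'
      · by_cases hj : ((b, i, c) : J) = (b', i', c')
        · rw [hj]
        · exact absurd hab (hw1 _ (hu _) _ (hu _) hj).1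
      · exact absurd hab (hw2 _ (hu _) _ (hu _))
      · exact absurd hab.symm (hw2 _ (hu _) _ (hu _))
      · by_cases hj : ((b, i, c) : J) = (b', i', c')
        · rw [hj]
        · exact absurd hab (hw1 _ (hu _) _ (hu _) hj).2
  obtain ⟨r, hr1, hr2⟩ := gadget hm x e t w hinj (fun i => (hall i).1)
    (by
      intro b
      have h1 := (HH b).w0
      obtain ⟨a0, a1, a2, a3, a4, a5, -⟩ := q0 b
      show 374 * k < 1000 * Q b 0 ∧ 1000 * Q b 0 ≤ 376 * k
      omega)
    (by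
      intro b
      have h1 := (HH b).w4
      obtain ⟨a0, a1, a2, a3, a4, a5, -⟩ := q0 b
      show 374 * k < 1000 * Q b 4 ∧ 1000 * Q b 4 ≤ 376 * k
      omega)
    (by
      intro b i
      have h1 := (HH b).w1
      have h2 := (HH b).w2
      have h3 := (HH b).w3
      have h5 := (HH b).w5
      obtain ⟨a0, a1, a2, a3, a4, a5, -⟩ := q0 b
      fin_cases i
      · show 239 * k < 1000 * Q b 1 ∧ 1000 * Q b 1 ≤ 241 * k
        omega
      · show 239 * k < 1000 * Q b 2 ∧ 1000 * Q b 2 ≤ 241 * k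
        omega
      · show 239 * k < 1000 * Q b 5 ∧ 1000 * Q b 5 ≤ 241 * k
        omega
      · show 239 * k < 1000 * Q b 3 ∧ 1000 * Q b 3 ≤ 241 * k
        omega)
    (by
      intro i
      have h6 := H.w6
      have h7 := H.w7
      have h8 := H.w8
      fin_cases i
      · show 399 * k < 1000 * g 6 ∧ 1000 * g 6 ≤ 401 * k
        omega
      · show 399 * k < 1000 * g 7 ∧ 1000 * g 7 ≤ 401 * k
        omega
      · show 399 * k < 1000 * g 8 ∧ 1000 * g 8 ≤ 401 * k
        omega)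
    (by
      rintro ⟨b, i, c⟩
      obtain ⟨h1, -⟩ := cnb_spec (hwC (b, i, c) (Finset.mem_univ _))
      have h2 : 5050 * k < 10000 * w (b, i, c) ∧ 10000 * w (b, i, c) ≤ 5150 * k := by
        apply win
        simpa [rP] using h1
      omega)
    (by
      intro b
      obtain ⟨a0, a1, a2, a3, a4, a5, a6, a7, a8, a9, a10, a11, a12, a13⟩ := q0 b
      exact a6)
    (by
      intro b
      obtain ⟨a0, a1, a2, a3, a4, a5, a6, a7, a8, a9, a10, a11, a12, a13⟩ := q0 b
      exact a7)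
    (by
      intro b
      obtain ⟨a0, a1, a2, a3, a4, a5, a6, a7, a8, a9, a10, a11, a12, a13⟩ := q0 b
      exact a8)
    (by
      intro b
      obtain ⟨a0, a1, a2, a3, a4, a5, a6, a7, a8, a9, a10, a11, a12, a13⟩ := q0 b
      exact a9)
    (by
      intro b
      obtain ⟨a0, a1, a2, a3, a4, a5, a6, a7, a8, a9, a10, a11, a12, a13⟩ := q0 b
      exact a10)
    (by
      intro b
      obtain ⟨a0, a1, a2, a3, a4, a5, a6, a7, a8, a9, a10, a11, a12, a13⟩ := q0 b
      exact a11)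
    (by
      intro b
      obtain ⟨a0, a1, a2, a3, a4, a5, a6, a7, a8, a9, a10, a11, a12, a13⟩ := q0 b
      exact a12)
    (by
      intro b
      obtain ⟨a0, a1, a2, a3, a4, a5, a6, a7, a8, a9, a10, a11, a12, a13⟩ := q0 b
      exact a13) z
  refine ⟨_, ?_, ?_, r, hr1, hr2⟩
  · refine Finset.card_image_le.trans ?_
    decide +kernel
  · rw [Finset.disjoint_left]
    intro p hp
    obtain ⟨i, -, rfl⟩ := Finset.mem_image.1 hp
    exact (hall i).2

theorem gadgets (hD : DegMinus) (hU : Up) : ∃ δ : ℝ, 0 < δ ∧ ∃ K : ℕ, ∀ k : ℕ, K ≤ k →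
    ∀ m : ℕ, 200 * m ≤ k → ∀ X : Finset ℕ, (∀ p ∈ X, p.Prime ∧ k < 5 * p ∧ p < k) →
    (X.card : ℝ) ≤ δ * k / log k → ∀ z : ℕ,
    ∃ D : Finset ℕ, D.card ≤ 63 ∧ Disjoint D X ∧ ∃ r, Good m k D r ∧ Cov D r z := by
  obtain ⟨δ, hδ, K, hK⟩ := halves hD hU
  refine ⟨δ, hδ, K, fun k hk m hm X hX hXc z => ?_⟩
  obtain ⟨g, g', H, H', hag, hin, hin', hne, ht, ht'⟩ := hK k hk X (fun p hp => by
    refine ⟨(hX p hp).1, ?_⟩
    have h1 : (k : ℝ) < 5 * p := by exact_mod_cast (hX p hp).2.1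
    have h2 : (0 : ℝ) ≤ p := Nat.cast_nonneg p
    rw [div_le_iff₀ (by norm_num)]
    linarith) hXc
  exact gadget_of_halves hm X g g' H H' hag hin hin' hne ht ht' z

/-- **Main theorem**: the statement S17048 from the two analytic inputs. -/
theorem main (hD : DegMinus) (hU : Up) :
    ¬ (∀ ε : ℝ, 0 < ε → ∃ K : ℕ, ∀ k : ℕ, K ≤ k → ∀ n : ℕ,
      ∃ i ∈ Finset.Icc 1 k,
        ((∏ p ∈ (Finset.range k).filter Nat.Prime, p ^ ((n + i).factorization p) : ℕ) : ℝ)
          ≤ ε * (k : ℝ)) := by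
  intro hcon
  obtain ⟨δ, hδ, K1, hK1⟩ := gadgets hD hU
  set ε : ℝ := min (1 / 200) (δ / 200) with hε
  have hε0 : 0 < ε := lt_min (by norm_num) (by positivity)
  have hε1 : ε ≤ 1 / 200 := min_le_left _ _
  have hε2 : ε ≤ δ / 200 := min_le_right _ _
  obtain ⟨K2, hK2⟩ := Z_upper ε hε0 (by linarith)
  obtain ⟨K3, hK3⟩ := hcon ε hε0
  set k := K1 + K2 + K3 + 3 with hk
  have hk3' : (3 : ℝ) ≤ k := by
    have : 3 ≤ k := by omega
    exact_mod_cast this
  have hL : 0 < log k := log_pos (by linarith)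
  set m := ⌊ε * k⌋₊ with hmdef
  have hmle : (m : ℝ) ≤ ε * k := Nat.floor_le (by positivity)
  have hm200 : 200 * m ≤ k := by
    have : (200 : ℝ) * m ≤ k := by nlinarith
    exact_mod_cast this
  have hmk : m < k := by omega
  set Z := (Finset.Icc k (m + k)).filter Nat.Prime with hZ
  have hZc : (Z.card : ℝ) ≤ 3 * ε * k / log k := hK2 k (by omega)
  obtain ⟨D, r, hD, hcov, -⟩ := insert_all (m := m) (k := k) (N := 63 * Z.card) (c := 63)
    (fun U hU1 hU2 z => hK1 k (by omega) m hm200 U hU1 (by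
      have h1 : (U.card : ℝ) ≤ 63 * Z.card := by exact_mod_cast hU2
      have h2 : 63 * (3 * ε * k / log k) ≤ δ * k / log k := by
        rw [← mul_div_assoc]
        apply div_le_div_of_nonneg_right _ hL.le
        nlinarith
      linarith) z) Z le_rfl
  obtain ⟨n, hn⟩ := crt hmk hD (fun x h1 h2 h3 =>
    hcov x (Finset.mem_filter.2 ⟨Finset.mem_Icc.2 ⟨h1, h2⟩, h3⟩))
  obtain ⟨i, hi, hle⟩ := hK3 k (by omega) n
  have hle' : ((A (n + i) k : ℕ) : ℝ) ≤ ε * k := hle
  rcases hn i hi with h | h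
  · have h1 : ε * k < m + 1 := Nat.lt_floor_add_one _
    have h2 : ((m : ℝ) + 1) ≤ (A (n + i) k : ℕ) := by exact_mod_cast h
    linarith
  · have h1 : (k : ℝ) < 5 * (A (n + i) k : ℕ) := by exact_mod_cast h
    nlinarith

end Pool.Agent.Helper91_SP
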