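import Pool.Agent.Helper91_SP.AP
import Pool.Agent.Helper91_SP.Local
import Pool.Agent.Helper71_SP.TBDefs

/-!
# The main term
-/

set_option autoImplicit false

namespace Pool.Agent.Helper91_SP

open Real Filter Topology

lemma mem_PW' {k : ℕ} {x0 x1 : ℝ} {p : ℕ} (h : p ∈ PW k x0 x1) :
    p.Prime ∧ x0 * k < p ∧ (p : ℝ) ≤ x1 * k := (Finset.mem_filter.1 h).2

lemma pos_of_window {a b : ℤ} {x0 x1 y0 y1 : ℝ}
    (hpos : ∀ x ∈ Set.Icc x0 x1, ∀ y ∈ Set.Icc y0 y1, 0 < (a : ℝ) * x + b * y) {k x p : ℕ}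
    (hk : 0 < k) (hx : x0 * k < x ∧ (x : ℝ) ≤ x1 * k) (hp : y0 * k < p ∧ (p : ℝ) ≤ y1 * k) :
    0 < a * (x : ℤ) + b * (p : ℤ) := by
  have hk' : (0 : ℝ) < k := by exact_mod_cast hk
  have h1 := hpos (x / k) ⟨by rw [le_div_iff₀ hk']; exact hx.1.le, by
    rw [div_le_iff₀ hk']; exact hx.2⟩ (p / k) ⟨by rw [le_div_iff₀ hk']; exact hp.1.le, by
    rw [div_le_iff₀ hk']; exact hp.2⟩
  have h2 : (a : ℝ) * x + b * p = ((a : ℝ) * (x / k) + b * (p / k)) * k := by field_simp
  have h3 : (0 : ℝ) < (a : ℝ) * x + b * p := by rw [h2]; positivity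
  exact_mod_cast h3

theorem mainTerm (a b : ℤ) (x0 x1 y0 y1 : ℝ) (hab : IsCoprime a b) (hodd : Odd (a + b))
    (hx0 : 0 < x0) (hy0 : 0 < y0) (hy01 : y0 < y1)
    (hpos : ∀ x ∈ Set.Icc x0 x1, ∀ y ∈ Set.Icc y0 y1, 0 < (a : ℝ) * x + b * y) :
    Pool.Agent.Helper71_SP.MainTerm a b x0 x1 y0 y1 := by
  classical
  intro w
  set W := primorial w with hW
  have hWpos : 0 < W := primorial_pos w
  have hK : ∀ r : ℕ, ∃ K : ℕ, Nat.Coprime r W → ∀ k : ℕ, K ≤ k → (y1 - y0) / 4 * k / log k ≤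
      (W.totient : ℝ) * (((PW k y0 y1).filter (fun p => p % W = r % W)).card : ℝ) := by
    intro r
    by_cases hr : Nat.Coprime r W
    · obtain ⟨K, hK⟩ := ap_lower W hWpos r hr y0 y1 hy0 hy01
      exact ⟨K, fun _ => hK⟩
    · exact ⟨0, fun h => absurd h hr⟩
  choose K hK using hK
  refine ⟨(Finset.range W).sup K + ⌈((w : ℝ) + 1) / x0⌉₊ + 3, fun k hk x hxp hx1 hx2 => ?_⟩
  have hk3' : (3 : ℝ) ≤ k := by
    have : 3 ≤ k := by omega
    exact_mod_cast this
  have hk0 : (0 : ℝ) < k := by linarith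
  have hL : 0 < log k := log_pos (by linarith)
  have hkw : (w : ℝ) + 1 ≤ x0 * k := by
    have h1 : ⌈((w : ℝ) + 1) / x0⌉₊ ≤ k := by omega
    have h2 : ((w : ℝ) + 1) / x0 ≤ k := (Nat.le_ceil _).trans (Nat.cast_le.2 h1)
    rw [div_le_iff₀ hx0] at h2
    linarith
  have hwx : w < x := by
    have : (w : ℝ) < x := by linarith
    exact_mod_cast this
  have hxndvd : ∀ p : ℕ, p.Prime → p ≤ w → ¬ (p : ℤ) ∣ (x : ℤ) := by
    intro p hp hpw h
    have h1 := Int.natCast_dvd_natCast.1 h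
    have := (Nat.prime_dvd_prime_iff_eq hp hxp).1 h1
    omega
  obtain ⟨D, hD⟩ : ∃ D, D = (Finset.range (w + 1)).filter Nat.Prime := ⟨_, rfl⟩
  have hdens := density_ge a b x hab hodd w hxndvd D hD
  have hDp : ∀ p ∈ D, p.Prime := fun p hp => (Finset.mem_filter.1 (hD ▸ hp)).2
  have hWD : W = ∏ p ∈ D, p := by rw [hD]; rfl
  set R := (Finset.range (primorial w)).filter
        (fun r : ℕ => ∀ p ∈ D, PP a b x p (r : ℤ)) with hR
  set G := (Finset.range (⌊y1 * k⌋₊ + 1)).filter (fun p : ℕ => p.Prime ∧ y0 * k < p ∧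
          (p : ℝ) ≤ y1 * k ∧ Nat.Coprime (a * (x : ℤ) + b * (p : ℤ)).toNat W) with hG
  set E := (y1 - y0) / 4 * k / log k with hE
  have hφ : (0 : ℝ) < W.totient := by exact_mod_cast Nat.totient_pos.2 hWpos
  have hWr : (0 : ℝ) < W := by exact_mod_cast hWpos
  -- each residue class
  have h1 : ∀ r ∈ R, E ≤ (W.totient : ℝ) *
      (((PW k y0 y1).filter (fun p => p % W = r)).card : ℝ) := by
    intro r hr
    rw [hR, Finset.mem_filter, Finset.mem_range] at hr
    have hco : Nat.Coprime r W := by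
      rw [hWD]
      apply Nat.Coprime.prod_right
      intro p hp
      apply Nat.Coprime.symm
      rw [(hDp p hp).coprime_iff_not_dvd]
      intro h
      exact (hr.2 p hp).1 (Int.natCast_dvd_natCast.2 h)
    have h2 := hK r hco k (by
      have : K r ≤ (Finset.range W).sup K := Finset.le_sup (Finset.mem_range.2 hr.1)
      omega)
    rw [Nat.mod_eq_of_lt hr.1] at h2
    exact h2
  -- summation
  have h2 : ∑ r ∈ R, (((PW k y0 y1).filter (fun p => p % W = r)).card : ℝ) ≤ G.card := by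
    have h3 := Finset.card_eq_sum_card_fiberwise (f := fun p => p % W)
      (s := (PW k y0 y1).filter (fun p => p % W ∈ R)) (t := R)
      (fun p hp => (Finset.mem_filter.1 hp).2)
    have h4 : ∑ r ∈ R, ((PW k y0 y1).filter (fun p => p % W = r)).card
        = ∑ r ∈ R, (((PW k y0 y1).filter (fun p => p % W ∈ R)).filter (fun p => p % W = r)).card := by
      apply Finset.sum_congr rfl
      intro r hr
      congr 1
      ext p
      simp only [Finset.mem_filter]
      constructor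
      · rintro ⟨h5, h6⟩; exact ⟨⟨h5, h6 ▸ hr⟩, h6⟩
      · rintro ⟨⟨h5, _⟩, h6⟩; exact ⟨h5, h6⟩
    have h5 : (PW k y0 y1).filter (fun p => p % W ∈ R) ⊆ G := by
      intro p hp
      rw [Finset.mem_filter] at hp
      obtain ⟨hp1, hp2⟩ := hp
      have hp3 := Finset.mem_filter.1 hp1
      rw [hG, Finset.mem_filter]
      refine ⟨hp3.1, hp3.2.1, hp3.2.2.1, hp3.2.2.2, ?_⟩
      have hval := pos_of_window hpos (k := k) (x := x) (p := p) (by omega) ⟨hx1, hx2⟩
        ⟨hp3.2.2.1, hp3.2.2.2⟩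
      rw [hWD]
      apply Nat.Coprime.prod_right
      intro l hl
      apply Nat.Coprime.symm
      rw [(hDp l hl).coprime_iff_not_dvd]
      intro h
      have h6 : (l : ℤ) ∣ a * (x : ℤ) + b * (p : ℤ) := by
        have := Int.natCast_dvd_natCast.2 h
        rwa [Int.toNat_of_nonneg hval.le] at this
      rw [hR, Finset.mem_filter] at hp2
      apply (hp2.2 l hl).2
      have h7 : (l : ℤ) ∣ (W : ℤ) := by
        rw [hWD]
        exact Int.natCast_dvd_natCast.2 (Finset.dvd_prod_of_mem _ hl)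
      have h8 : ((p % W : ℕ) : ℤ) = p - W * (p / W : ℕ) := by
        have := Nat.mod_add_div p W
        push_cast
        have h9 : ((p % W : ℕ) : ℤ) + W * (p / W : ℕ) = p := by exact_mod_cast this
        push_cast at h9
        linarith
      rw [h8]
      have h10 : a * (x : ℤ) + b * ((p : ℤ) - W * (p / W : ℕ))
          = (a * (x : ℤ) + b * (p : ℤ)) - W * (b * (p / W : ℕ)) := by ring
      rw [h10]
      exact dvd_sub h6 (h7.mul_right _)
    have h6 : ∑ r ∈ R, ((PW k y0 y1).filter (fun p => p % W = r)).card ≤ G.card := by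
      rw [h4, ← h3]
      exact Finset.card_le_card h5
    exact_mod_cast h6
  have h3 : (R.card : ℝ) * E ≤ (W.totient : ℝ) * G.card := by
    calc (R.card : ℝ) * E = ∑ r ∈ R, E := by simp
      _ ≤ ∑ r ∈ R, (W.totient : ℝ) * (((PW k y0 y1).filter (fun p => p % W = r)).card : ℝ) :=
        Finset.sum_le_sum h1
      _ = (W.totient : ℝ) * ∑ r ∈ R, (((PW k y0 y1).filter (fun p => p % W = r)).card : ℝ) := by
        rw [Finset.mul_sum]
      _ ≤ _ := mul_le_mul_of_nonneg_left h2 hφ.le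
  have hE0 : 0 ≤ E := div_nonneg (mul_nonneg (by linarith) hk0.le) hL.le
  have h4 : (W.totient : ℝ) ^ 2 * E ≤ (W : ℝ) * ((W.totient : ℝ) * G.card) := by
    calc (W.totient : ℝ) ^ 2 * E ≤ ((W : ℝ) * R.card) * E := mul_le_mul_of_nonneg_right hdens hE0
      _ = (W : ℝ) * ((R.card : ℝ) * E) := by ring
      _ ≤ _ := mul_le_mul_of_nonneg_left h3 hWr.le
  have h5 : (W.totient : ℝ) * E ≤ (W : ℝ) * G.card := by
    have : (W.totient : ℝ) * ((W.totient : ℝ) * E) ≤ (W.totient : ℝ) * ((W : ℝ) * G.card) := by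
      nlinarith
    exact le_of_mul_le_mul_left this hφ
  rw [div_mul_eq_mul_div, le_div_iff₀ hφ]
  linarith

end Pool.Agent.Helper91_SP
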